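import Mathlib

/-!
# Project WP (MP_63749c_nt): nonperiodic points modulo primes; statements of the packages

`K` is a number field, `f` a polynomial over `K` of degree at least two. Main theorem: if at ONE prime `v` of good
reduction none of the points `γ i` is periodic modulo `v`, then the same is true for a positive proportion of the primes.
Second theorem: for every `f` the exceptional tuples of algebraic integers are, for every `ε`, in a proportion `ε` of the
residue classes modulo some ideal.
-/

set_option autoImplicit false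

open NumberField IsDedekindDomain Polynomial

namespace Pool.Agent.P8H74.WP

section

variable {K : Type} [Field K] [NumberField K]

/-- The polynomial `f` has good reduction at the prime `v`: its coefficients are `v`-integral and the leading coefficient is
a unit at `v`. -/
def Good (v : HeightOneSpectrum (𝓞 K)) (f : K[X]) : Prop :=
  (∀ i, v.valuation K (f.coeff i) ≤ 1) ∧ v.valuation K f.leadingCoeff = 1

/-- The point `γ` is periodic modulo `v` for the polynomial map `f`, which has good reduction at `v`: `γ` is not `v`-integral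
(then its reduction is the fixed point `∞`) or `f^m(γ) ≡ γ` modulo `v` for some `m ≥ 1`. -/
def PeriodicMod (v : HeightOneSpectrum (𝓞 K)) (f : K[X]) (γ : K) : Prop :=
  1 < v.valuation K γ ∨ ∃ m : ℕ, 0 < m ∧ v.valuation K ((fun x => f.eval x)^[m] γ - γ) < 1

end

/-- **FF** (100 lines, Mathlib only). Values missed by a polynomial `g` of degree `d ≥ 2` over a finite field with `q`
elements, `q ≡ 1 mod d`: at least `q / (2 d)`.

Proof. Let `N a` be the number of the `x` with `g x = a`, `W a = (N a : k) - 1`, `m = (q - 1) / d`, so `m < q - 1`. For a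
polynomial `h` of degree `< m`: `∑ a, W a * h a = ∑ x, h (g x) - ∑ a, h a = 0`, since both are sums over `k` of polynomials of
degree `< q - 1` (`FiniteField.sum_pow_lt_card_sub_one`: `∑ x, x ^ i = 0` for `i < q - 1`). And `∑ a, W a * a ^ m =
∑ x, g x ^ m - ∑ a, a ^ m = - lc ^ m ≠ 0` (`g ^ m` has degree `q - 1`, and `∑ x, x ^ (q - 1) = -1`). So `W ≠ 0`. If the support
`T` of `W` had at most `m` elements, take `a₀ ∈ T` and `h = ∏ a ∈ T \ {a₀}, (X - a)` of degree `< m`:
`0 = ∑ a, W a * h a = W a₀ * h a₀ ≠ 0`. So `m + 1 ≤ card T`. If `W a ≠ 0` then `N a ≠ 1`, so `N a = 0` or `N a ≥ 2`; the number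
of the `a` with `N a ≥ 2` is at most `∑ (N a - 1)` over them, which is the number of the `a` with `N a = 0`, because
`∑ a, N a = q`. So `m + 1 ≤ 2 * #{N = 0}` and `q = d m + 1 ≤ d (m + 1) ≤ 2 d #{N = 0}`. -/
def S_FF : Prop :=
  ∀ (k : Type) [Field k] [Finite k] (g : k[X]), 2 ≤ g.natDegree → g.natDegree ∣ Nat.card k - 1 →
    Nat.card k ≤ 2 * g.natDegree * {a : k | ∀ x, g.eval x ≠ a}.ncard

/-- **PRM** (60 lines, Mathlib only). There are infinitely many primes `v` of `K` with norm `≡ 1` modulo `d`. Proof: for every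
`n` there is a prime number `p > n`, `p ≡ 1 mod d` (`Nat.exists_prime_gt_modEq_one`); take a maximal ideal `v` of `𝓞 K` which
contains `p`; the norm of `v` is a power of `p` (the residue field is a finite field of characteristic `p`,
`FiniteField.card`), so `≡ 1 mod d`, and different `p` give different `v`. -/
def S_PRM : Prop :=
  ∀ (K : Type) [Field K] [NumberField K] (d : ℕ), 0 < d →
    {v : HeightOneSpectrum (𝓞 K) | d ∣ Ideal.absNorm v.asIdeal - 1}.Infinite

/-- **RED** (100 lines, Mathlib only; theorem red : S_FF → S_RED). At a prime `v` of good reduction with norm `≡ 1` modulo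
`d = deg f` there is a set `M` of at least `N v / (2 d)` residue classes modulo `v` of nonperiodic points. Proof: for every
`i` there is `c i ∈ 𝓞 K` with `v (c i - f.coeff i) < 1` (Mathlib: `HeightOneSpectrum.exists_valuation_sub_lt_of_integer`);
let `g = ∑ i ∈ range (d + 1), C (mk (c i)) * X ^ i` over `𝓞 K ⧸ v`, of degree `d` as `c d ∉ v`; let `M` be the set of the
values missed by `g` (`S_FF`; `Ideal.absNorm` = card of the quotient: `Ideal.absNorm_apply`, `Submodule.cardQuot_apply`). If
`γ ∈ 𝓞 K` is periodic modulo `v`, `f^m(γ) ≡ γ`, `m ≥ 1`, then `y = f^(m-1)(γ) ∈ K` is `v`-integral, `v (y - b) < 1` for some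
`b ∈ 𝓞 K`, and `g (mk b) = mk γ`, so `mk γ ∉ M`. -/
def S_RED : Prop :=
  ∀ (K : Type) [Field K] [NumberField K] (v : HeightOneSpectrum (𝓞 K)) (f : K[X]), Good v f → 2 ≤ f.natDegree →
    f.natDegree ∣ Ideal.absNorm v.asIdeal - 1 → ∃ M : Set (𝓞 K ⧸ v.asIdeal),
      Ideal.absNorm v.asIdeal ≤ 2 * f.natDegree * M.ncard ∧
      ∀ γ : 𝓞 K, Ideal.Quotient.mk v.asIdeal γ ∈ M → ¬ PeriodicMod v f (γ : K)

/-- **CRT** (120 lines, Mathlib only). Let `V` be an infinite set of primes, and let `E` be a set of `r`-tuples of algebraic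
integers such that for every `v ∈ V` there is a set `M` of at least `c N v` residue classes modulo `v` such that no
tuple of `E` has all its components in `M` modulo `v`. Then for every `ε > 0` there is an ideal `I ≠ 0` such that `E` is in a
proportion `ε` of the residue classes of tuples modulo `I`. Proof: take `n` different `v 1, ..., v n ∈ V` with
`(1 - c ^ r) ^ n ≤ ε` (for `r = 0` the set `E` is empty), and `I = ⨅ j, v j`. By
`Ideal.quotientInfRingEquivPiQuotient` the residue classes modulo `I` of tuples correspond to the families of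
elements of `Fin r → 𝓞 K ⧸ v j`, and the classes of `E` to families with components outside of `M j ^ r`: at most
`∏ j, (q j ^ r - (card M j) ^ r) ≤ ∏ j, q j ^ r (1 - c ^ r)` and `Nat.card (𝓞 K ⧸ I) = ∏ j, q j`. -/
def S_CRT : Prop :=
  ∀ (K : Type) [Field K] [NumberField K] (r : ℕ) (c : ℝ), 0 < c → c ≤ 1 → ∀ (E : Set (Fin r → 𝓞 K))
    (V : Set (HeightOneSpectrum (𝓞 K))), V.Infinite →
    (∀ v ∈ V, ∃ M : Set (𝓞 K ⧸ v.asIdeal), c * (Ideal.absNorm v.asIdeal : ℝ) ≤ (M.ncard : ℝ) ∧
      ∀ γ ∈ E, ¬ ∀ i, Ideal.Quotient.mk v.asIdeal (γ i) ∈ M) →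
    ∀ ε : ℝ, 0 < ε → ∃ I : Ideal (𝓞 K), I ≠ ⊥ ∧
      (((fun γ : Fin r → 𝓞 K => fun i => Ideal.Quotient.mk I (γ i)) '' E).ncard : ℝ) ≤ ε * (Nat.card (𝓞 K ⧸ I) : ℝ) ^ r

/-- **GFN** (30 lines, Mathlib only). All but finitely many primes are primes of good reduction of `f ≠ 0`:
`HeightOneSpectrum.Support.finite` for the coefficients and the inverse of the leading coefficient. -/
def S_GFN : Prop :=
  ∀ (K : Type) [Field K] [NumberField K] (f : K[X]), f ≠ 0 → {v : HeightOneSpectrum (𝓞 K) | ¬ Good v f}.Finite

end Pool.Agent.P8H74.WP
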