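import Pool.Agent.P8H74.WP.Main
import Pool.Agent.P8H53.WP.Red
import Pool.Agent.P8H96.WP.Gfn
import Pool.Agent.P8H96.WP.Crt
import Pool.Agent.P8H78.WP.FF
import Pool.Agent.P8H78.WP.Prm

/-!
# Almost all tuples, and stability under congruences
-/

set_option autoImplicit false

open NumberField IsDedekindDomain Polynomial

namespace Pool.Agent.P8H74.WP

open Pool.Agent.K3h30.RS (PosProportion)

variable {K : Type} [Field K] [NumberField K]

theorem of_one (f : K[X]) (hd : 1 ≤ f.natDegree) {r : ℕ} (γ : Fin r → K)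
    (h : ∃ v, Good v f ∧ ∀ i, ¬ PeriodicMod v f (γ i)) :
    PosProportion (fun v => Good v f ∧ ∀ i, ¬ PeriodicMod v f (γ i)) :=
  pos_mono (one_prime Pool.Agent.P8H96.WP.gfn f hd γ h ∅) fun _ hv => hv.2

/-- congruent maps have congruent values -/
lemma eval_congr (v : HeightOneSpectrum (𝓞 K)) {f g : K[X]} (h : ∀ i, v.valuation K (g.coeff i - f.coeff i) < 1) {x : K}
    (hx : v.valuation K x ≤ 1) : v.valuation K (g.eval x - f.eval x) < 1 := by
  rw [← eval_sub, eval_eq_sum_range]
  apply (v.valuation K).map_sum_lt one_ne_zero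
  intro i _
  rw [map_mul, map_pow, coeff_sub]
  exact (mul_le_of_le_one_right' (pow_le_one₀ zero_le hx)).trans_lt (h i)

lemma le_of_sub_lt (v : HeightOneSpectrum (𝓞 K)) {x y : K} (hx : v.valuation K x ≤ 1) (h : v.valuation K (y - x) < 1) :
    v.valuation K y ≤ 1 := by
  have e : y = (y - x) + x := by ring
  rw [e]
  exact ((v.valuation K).map_add _ _).trans (max_le h.le hx)

lemma good_congr (v : HeightOneSpectrum (𝓞 K)) {f g : K[X]} (hf : Good v f) (hd : g.natDegree = f.natDegree)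
    (h : ∀ i, v.valuation K (g.coeff i - f.coeff i) < 1) : Good v g := by
  refine ⟨fun i => le_of_sub_lt v (hf.1 i) (h i), ?_⟩
  have e : g.leadingCoeff = (g.coeff g.natDegree - f.coeff g.natDegree) + f.coeff g.natDegree := by
    rw [sub_add_cancel]
    rfl
  have h2 : v.valuation K (f.coeff g.natDegree) = 1 := by
    rw [hd]
    exact hf.2
  rw [e, (v.valuation K).map_add_eq_of_lt_right (by rw [h2]; exact h _), h2]

/-- nonperiodicity modulo `v` depends only on the residue classes -/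
lemma periodic_congr (v : HeightOneSpectrum (𝓞 K)) {f g : K[X]} (hf : Good v f) (hd : g.natDegree = f.natDegree)
    (h : ∀ i, v.valuation K (g.coeff i - f.coeff i) < 1) {γ δ : K} (hδ : v.valuation K (δ - γ) < 1)
    (hγ : ¬ PeriodicMod v f γ) : ¬ PeriodicMod v g δ := by
  have hg := good_congr v hf hd h
  have hγ1 : v.valuation K γ ≤ 1 := by
    by_contra hc
    exact hγ (Or.inl (not_le.1 hc))
  have hδ1 : v.valuation K δ ≤ 1 := le_of_sub_lt v hγ1 hδ
  rintro (h1 | ⟨m, hm, h1⟩)
  · exact absurd hδ1 (not_le.2 h1)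
  · refine hγ (Or.inr ⟨m, hm, ?_⟩)
    have key : ∀ m : ℕ, v.valuation K ((fun x => g.eval x)^[m] δ - (fun x => f.eval x)^[m] γ) < 1 := by
      intro m
      induction m with
      | zero => simpa using hδ
      | succ m ih =>
          rw [Function.iterate_succ_apply', Function.iterate_succ_apply']
          have i1 := iter_le _ hg.1 hδ1 m
          have i2 := iter_le _ hf.1 hγ1 m
          have i3 := eval_sub_lt _ hg.1 i1 i2 ih
          have i4 := eval_congr v h i2
          have i5 := (v.valuation K).map_add_lt i3 i4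
          rwa [sub_add_sub_cancel] at i5
    have e : (fun x => f.eval x)^[m] γ - γ = ((fun x => g.eval x)^[m] δ - δ) + (δ - γ) -
        ((fun x => g.eval x)^[m] δ - (fun x => f.eval x)^[m] γ) := by ring
    rw [e]
    exact (v.valuation K).map_sub_lt ((v.valuation K).map_add_lt h1 hδ) (key m)

theorem stable (f : K[X]) (hd : 1 ≤ f.natDegree) {r : ℕ} (γ : Fin r → K) (v : HeightOneSpectrum (𝓞 K)) (hv : Good v f)
    (hγ : ∀ i, ¬ PeriodicMod v f (γ i)) (g : K[X]) (hg : g.natDegree = f.natDegree)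
    (hgf : ∀ i, v.valuation K (g.coeff i - f.coeff i) < 1) (δ : Fin r → K) (hδ : ∀ i, v.valuation K (δ i - γ i) < 1) :
    PosProportion (fun v => Good v g ∧ ∀ i, ¬ PeriodicMod v g (δ i)) :=
  of_one g (by omega) δ
    ⟨v, good_congr v hv hg hgf, fun i => periodic_congr v hv hg hgf (hδ i) (hγ i)⟩

theorem almost_all (f : K[X]) (hd : 2 ≤ f.natDegree) (r : ℕ) (ε : ℝ) (hε : 0 < ε) : ∃ I : Ideal (𝓞 K), I ≠ ⊥ ∧
    (((fun γ : Fin r → 𝓞 K => fun i => Ideal.Quotient.mk I (γ i)) '' {γ | ¬ PosProportion (fun v => Good v f ∧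
      ∀ i, ¬ PeriodicMod v f (γ i : K))}).ncard : ℝ) ≤ ε * (Nat.card (𝓞 K ⧸ I) : ℝ) ^ r := by
  have hf0 : f ≠ 0 := by
    rintro rfl
    simp at hd
  have hd0 : (0 : ℝ) < f.natDegree := by exact_mod_cast (by omega : 0 < f.natDegree)
  have hd1 : (1 : ℝ) ≤ f.natDegree := by exact_mod_cast (by omega : 1 ≤ f.natDegree)
  refine Pool.Agent.P8H96.WP.crt K r (1 / (2 * f.natDegree)) (by positivity) ?_ _
    ({v : HeightOneSpectrum (𝓞 K) | f.natDegree ∣ Ideal.absNorm v.asIdeal - 1} \ {v | ¬ Good v f}) ?_ ?_ ε hε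
  · rw [div_le_one (by positivity)]
    linarith
  · exact (Pool.Agent.P8H78.WP.prm K f.natDegree (by omega)).sdiff (Pool.Agent.P8H96.WP.gfn K f hf0)
  · rintro v ⟨hv1, hv2⟩
    have hg : Good v f := by
      by_contra hc
      exact hv2 hc
    obtain ⟨M, hM1, hM2⟩ := Pool.Agent.P8H53.WP.red Pool.Agent.P8H78.WP.ff K v f hg hd hv1
    refine ⟨M, ?_, fun γ hγ hall => hγ ?_⟩
    · have h1 : (Ideal.absNorm v.asIdeal : ℝ) ≤ 2 * f.natDegree * M.ncard := by exact_mod_cast hM1
      rw [div_mul_eq_mul_div, one_mul, div_le_iff₀ (by positivity)]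
      linarith
    · exact of_one f (by omega) (fun i => (γ i : K))
        ⟨v, hg, fun i => hM2 (γ i) (hall i)⟩

end Pool.Agent.P8H74.WP
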