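import Pool.Agent.P8H74.WP.Val

/-!
# Frobenius automorphisms and nonperiodic points
-/

set_option autoImplicit false

open NumberField IsDedekindDomain Polynomial

namespace Pool.Agent.P8H74.WP

section ext

variable {K L : Type} [Field K] [NumberField K] [Field L] [NumberField L] [Algebra K L]
  (v : HeightOneSpectrum (𝓞 K)) (P : HeightOneSpectrum (𝓞 L))
  (hP : P.asIdeal.comap (algebraMap (𝓞 K) (𝓞 L)) = v.asIdeal)

include hP

lemma up_int (a : 𝓞 K) (ha : a ∉ v.asIdeal) : P.valuation L (algebraMap K L (a : K)) = 1 := by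
  have e : algebraMap K L (a : K) = ((algebraMap (𝓞 K) (𝓞 L) a : 𝓞 L) : L) := rfl
  rw [e]
  refine (P.valuation_eq_one_iff_notMem (K := L)).2 fun h => ha ?_
  rw [← hP]
  exact h

lemma up_le {x : K} (hx : v.valuation K x ≤ 1) : P.valuation L (algebraMap K L x) ≤ 1 := by
  obtain ⟨n, d, h⟩ := HeightOneSpectrum.exists_primeCompl_mul_eq_of_integer v x hx
  have h1 := congrArg (fun z => P.valuation L (algebraMap K L z)) h
  simp only [map_mul] at h1
  have h2 : P.valuation L (algebraMap K L (algebraMap (𝓞 K) K d)) = 1 := up_int v P hP d d.2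
  rw [h2, mul_one] at h1
  rw [h1]
  exact P.valuation_le_one (K := L) (algebraMap (𝓞 K) (𝓞 L) n)

lemma down_lt {x : K} (hx : P.valuation L (algebraMap K L x) < 1) : v.valuation K x < 1 := by
  by_contra hc
  rw [not_lt] at hc
  have hx0 : x ≠ 0 := by
    rintro rfl
    rw [map_zero] at hc
    exact absurd hc (not_le.2 zero_lt_one)
  have h1 : v.valuation K x⁻¹ ≤ 1 := by
    rw [map_inv₀]
    exact inv_le_one_of_one_le₀ hc
  have h2 := up_le v P hP h1
  rw [map_inv₀, map_inv₀] at h2
  have h3 : P.valuation L (algebraMap K L x) ≠ 0 := by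
    rw [Ne, map_eq_zero, map_eq_zero]
    exact hx0
  have h4 : 1 < (P.valuation L (algebraMap K L x))⁻¹ := (one_lt_inv₀ (pos_iff_ne_zero.2 h3)).2 hx
  exact absurd h2 (not_le.2 h4)

lemma up_lt {x : K} (hx : v.valuation K x < 1) : P.valuation L (algebraMap K L x) < 1 := by
  obtain ⟨n, d, h⟩ := HeightOneSpectrum.exists_primeCompl_mul_eq_of_integer v x hx.le
  have h0 := congrArg (v.valuation K) h
  have h5 : v.valuation K (algebraMap (𝓞 K) K d) = 1 := (v.valuation_eq_one_iff_notMem (K := K)).2 d.2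
  rw [map_mul, h5, mul_one] at h0
  have h6 : n ∈ v.asIdeal := by
    rw [← v.valuation_lt_one_iff_mem (K := K), ← h0]
    exact hx
  have h1 := congrArg (fun z => P.valuation L (algebraMap K L z)) h
  simp only [map_mul] at h1
  have h2 : P.valuation L (algebraMap K L (algebraMap (𝓞 K) K d)) = 1 := up_int v P hP d d.2
  rw [h2, mul_one] at h1
  rw [h1]
  have e : algebraMap K L (algebraMap (𝓞 K) K n) = algebraMap (𝓞 L) L (algebraMap (𝓞 K) (𝓞 L) n) := rfl
  rw [e, P.valuation_lt_one_iff_mem]
  rw [← hP] at h6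
  exact h6

lemma up_one {x : K} (hx : v.valuation K x = 1) : P.valuation L (algebraMap K L x) = 1 := by
  refine le_antisymm (up_le v P hP hx.le) ?_
  by_contra hc
  rw [not_le] at hc
  exact absurd (down_lt v P hP hc) (by rw [hx]; exact lt_irrefl _)

end ext

/-- the Frobenius congruence for all `P`-integral elements -/
lemma frob_ext {K L : Type} [Field K] [NumberField K] [Field L] [NumberField L] [Algebra K L]
    (P : HeightOneSpectrum (𝓞 L)) (Φ : L ≃ₐ[K] L) (q : ℕ)
    (h : ∀ x : 𝓞 L, P.valuation L (Φ (x : L) - (x : L) ^ q) < 1) {x : L} (hx : P.valuation L x ≤ 1) :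
    P.valuation L (Φ x - x ^ q) < 1 := by
  obtain ⟨n, d, hnd⟩ := HeightOneSpectrum.exists_primeCompl_mul_eq_of_integer P x hx
  have hd : P.valuation L (algebraMap (𝓞 L) L d) = 1 := (P.valuation_eq_one_iff_notMem (K := L)).2 d.2
  have hdq : P.valuation L (algebraMap (𝓞 L) L d ^ q) = 1 := by rw [map_pow, hd, one_pow]
  have hn1 : P.valuation L (algebraMap (𝓞 L) L n) ≤ 1 := P.valuation_le_one n
  have hΦd : P.valuation L (Φ (algebraMap (𝓞 L) L d)) = 1 := by
    have h1 : Φ (algebraMap (𝓞 L) L d) = (Φ (algebraMap (𝓞 L) L d) - algebraMap (𝓞 L) L d ^ q) +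
      algebraMap (𝓞 L) L d ^ q := by ring
    rw [h1, (P.valuation L).map_add_eq_of_lt_right (by rw [hdq]; exact h d), hdq]
  have hnn : Φ (algebraMap (𝓞 L) L n) = Φ x * Φ (algebraMap (𝓞 L) L d) := by rw [← hnd, map_mul]
  have key : (Φ x - x ^ q) * (Φ (algebraMap (𝓞 L) L d) * algebraMap (𝓞 L) L d ^ q) =
      (Φ (algebraMap (𝓞 L) L n) - algebraMap (𝓞 L) L n ^ q) * algebraMap (𝓞 L) L d ^ q -
        algebraMap (𝓞 L) L n ^ q * (Φ (algebraMap (𝓞 L) L d) - algebraMap (𝓞 L) L d ^ q) := by
    rw [hnn, ← hnd, mul_pow]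
    ring
  have h2 := congrArg (P.valuation L) key
  rw [map_mul, map_mul, hΦd, hdq, one_mul, mul_one] at h2
  rw [h2]
  apply (P.valuation L).map_sub_lt
  · rw [map_mul, hdq, mul_one]
    exact h n
  · rw [map_mul, map_pow]
    exact (mul_le_of_le_one_left' (pow_le_one₀ zero_le hn1)).trans_lt (h d)

/-- pigeonhole: `q + 1` elements fixed by the Frobenius map -/
lemma pigeon {L : Type} [Field L] [NumberField L] (P : HeightOneSpectrum (𝓞 L)) (q : ℕ) (hq : 1 < q) (x : ℕ → L)
    (hx : ∀ j, P.valuation L (x j) ≤ 1) (h : ∀ j, P.valuation L (x j ^ q - x j) < 1) :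
    ∃ i j, i < j ∧ j ≤ q ∧ P.valuation L (x i - x j) < 1 := by
  classical
  have hPm : P.asIdeal.IsMaximal := P.isPrime.isMaximal P.ne_bot
  let _ : Field (𝓞 L ⧸ P.asIdeal) := Ideal.Quotient.field P.asIdeal
  choose a ha using fun j => HeightOneSpectrum.exists_valuation_sub_lt_of_integer P (hx j) 1
  simp only [Units.val_one] at ha
  have hroot : ∀ j, (Ideal.Quotient.mk P.asIdeal (a j)) ^ q = Ideal.Quotient.mk P.asIdeal (a j) := by
    intro j
    rw [← map_pow, Ideal.Quotient.eq, ← P.valuation_lt_one_iff_mem (K := L)]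
    change P.valuation L (algebraMap (𝓞 L) L (a j ^ q - a j)) < 1
    rw [map_sub, map_pow]
    have e : algebraMap (𝓞 L) L (a j) ^ q - algebraMap (𝓞 L) L (a j) =
        (algebraMap (𝓞 L) L (a j) ^ q - x j ^ q) + (x j ^ q - x j) - (algebraMap (𝓞 L) L (a j) - x j) := by ring
    rw [e]
    exact (P.valuation L).map_sub_lt ((P.valuation L).map_add_lt
      (pow_sub_lt _ (P.valuation_le_one (a j)) (hx j) (ha j) q) (h j)) (ha j)
  have hcard : ((X ^ q - X : (𝓞 L ⧸ P.asIdeal)[X]).roots.toFinset).card ≤ q := by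
    refine (Multiset.toFinset_card_le _).trans ((Polynomial.card_roots' _).trans ?_)
    rw [FiniteField.X_pow_card_sub_X_natDegree_eq _ hq]
  obtain ⟨i, hi, j, hj, hij, he⟩ := Finset.exists_ne_map_eq_of_card_lt_of_maps_to
    (s := Finset.range (q + 1)) (t := (X ^ q - X : (𝓞 L ⧸ P.asIdeal)[X]).roots.toFinset)
    (f := fun j => Ideal.Quotient.mk P.asIdeal (a j)) (by rw [Finset.card_range]; omega) (by
      intro j _
      rw [Finset.mem_coe, Multiset.mem_toFinset, Polynomial.mem_roots (FiniteField.X_pow_card_sub_X_ne_zero _ hq)]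
      simp [Polynomial.IsRoot.def, hroot j])
  have hlt : ∀ i j, Ideal.Quotient.mk P.asIdeal (a i) = Ideal.Quotient.mk P.asIdeal (a j) →
      P.valuation L (x i - x j) < 1 := by
    intro i j he
    rw [Ideal.Quotient.eq, ← P.valuation_lt_one_iff_mem (K := L)] at he
    change P.valuation L (algebraMap (𝓞 L) L (a i - a j)) < 1 at he
    rw [map_sub] at he
    have e : x i - x j = (algebraMap (𝓞 L) L (a i) - algebraMap (𝓞 L) L (a j)) -
      (algebraMap (𝓞 L) L (a i) - x i) + (algebraMap (𝓞 L) L (a j) - x j) := by ring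
    rw [e]
    exact (P.valuation L).map_add_lt ((P.valuation L).map_sub_lt he (ha i)) (ha j)
  rw [Finset.mem_range] at hi hj
  rcases lt_or_gt_of_ne hij with h1 | h1
  · exact ⟨i, j, h1, by omega, hlt i j he⟩
  · exact ⟨j, i, h1, by omega, hlt j i he.symm⟩

section main

variable {K L : Type} [Field K] [NumberField K] [Field L] [NumberField L] [Algebra K L]

lemma iter_map (f : K[X]) (n : ℕ) (x : K) :
    (fun y => (f.map (algebraMap K L)).eval y)^[n] (algebraMap K L x) = algebraMap K L ((fun y => f.eval y)^[n] x) := by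
  induction n with
  | zero => rfl
  | succ n ih =>
      rw [Function.iterate_succ_apply', Function.iterate_succ_apply', ih, eval_map_algebraMap, aeval_algebraMap_apply]
      rfl

lemma phi_eval (Φ : L ≃ₐ[K] L) (f : K[X]) (y : L) :
    Φ ((f.map (algebraMap K L)).eval y) = (f.map (algebraMap K L)).eval (Φ y) := by
  rw [eval_map_algebraMap, eval_map_algebraMap]
  exact (aeval_algHom_apply Φ.toAlgHom y f).symm

lemma phi_iter (Φ : L ≃ₐ[K] L) (f : K[X]) {y : L} (hy : Φ y = y) (n : ℕ) :
    Φ ((fun y => (f.map (algebraMap K L)).eval y)^[n] y) = (fun y => (f.map (algebraMap K L)).eval y)^[n] y := by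
  induction n with
  | zero => exact hy
  | succ n ih =>
      rw [Function.iterate_succ_apply', phi_eval, ih]

variable (v : HeightOneSpectrum (𝓞 K)) (P : HeightOneSpectrum (𝓞 L))
  (hP : P.asIdeal.comap (algebraMap (𝓞 K) (𝓞 L)) = v.asIdeal)

include hP

lemma good_up {f : K[X]} (hf : Good v f) : (∀ i, P.valuation L ((f.map (algebraMap K L)).coeff i) ≤ 1) ∧
    P.valuation L (f.map (algebraMap K L)).leadingCoeff = 1 := by
  constructor
  · intro i
    rw [coeff_map]
    exact up_le v P hP (hf.1 i)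
  · rw [leadingCoeff_map]
    exact up_one v P hP hf.2

/-- If `γ` is not periodic modulo `v` then the Frobenius automorphism at `P` has no fixed point among the solutions of
`f^n(β) = γ` for `n ≥ N v`. -/
theorem no_fixed {f : K[X]} (hf : Good v f) (hd : 1 ≤ f.natDegree) {γ : K} (hγ : ¬ PeriodicMod v f γ) (Φ : L ≃ₐ[K] L)
    (hq : 1 < Ideal.absNorm v.asIdeal)
    (hΦ : ∀ x : 𝓞 L, P.valuation L (Φ (x : L) - (x : L) ^ Ideal.absNorm v.asIdeal) < 1) {n : ℕ}
    (hn : Ideal.absNorm v.asIdeal ≤ n) {β : L}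
    (hβ : (fun y => (f.map (algebraMap K L)).eval y)^[n] β = algebraMap K L γ) : Φ β ≠ β := by
  intro hfix
  obtain ⟨hg, hl⟩ := good_up v P hP hf
  have hγ1 : v.valuation K γ ≤ 1 := by
    by_contra hc
    exact hγ (Or.inl (not_le.1 hc))
  have hβ1 : P.valuation L β ≤ 1 := by
    refine iter_root_le _ hg hl (by rw [natDegree_map]; exact hd) n ?_
    rw [hβ]
    exact up_le v P hP hγ1
  obtain ⟨i, j, hij, hjq, hlt⟩ := pigeon P (Ideal.absNorm v.asIdeal) hq
    (fun j => (fun y => (f.map (algebraMap K L)).eval y)^[j] β) (fun j => iter_le _ hg hβ1 j) (fun j => by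
      have h1 := frob_ext P Φ _ hΦ (iter_le _ hg hβ1 j)
      rw [phi_iter Φ f hfix j, Valuation.map_sub_swap] at h1
      exact h1)
  have h2 := iter_sub_lt _ hg (iter_le _ hg hβ1 i) (iter_le _ hg hβ1 j) hlt (n - i)
  rw [← Function.iterate_add_apply, ← Function.iterate_add_apply, Nat.sub_add_cancel (by omega),
    show n - i + j = (j - i) + n by omega, Function.iterate_add_apply _ (j - i) n, hβ, iter_map,
    Valuation.map_sub_swap, ← map_sub] at h2
  exact hγ (Or.inr ⟨j - i, by omega, down_lt v P hP h2⟩)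

/-- If `Φ` is the Frobenius automorphism at `P` and moves all the solutions of `f^n(β) = γ` to elements which are different
modulo `P`, then `γ` is not periodic modulo `v`. -/
theorem spread {f : K[X]} (hf : Good v f) (hd : 1 ≤ f.natDegree) {γ : K} (hγ1 : v.valuation K γ ≤ 1) (Φ : L ≃ₐ[K] L)
    (hΦ : ∀ x : 𝓞 L, P.valuation L (Φ (x : L) - (x : L) ^ Ideal.absNorm v.asIdeal) < 1) {n : ℕ}
    (hs : ((f.comp^[n] X - C γ).map (algebraMap K L)).Splits)
    (hβ : ∀ β ∈ ((f.comp^[n] X - C γ).map (algebraMap K L)).roots, ¬ P.valuation L (Φ β - β) < 1) :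
    ¬ PeriodicMod v f γ := by
  rintro (h1 | ⟨m, hm, h1⟩)
  · exact absurd hγ1 (not_le.2 h1)
  set x : K := (fun y => f.eval y)^[m * n - n] γ with hx
  have hx1 : v.valuation K x ≤ 1 := iter_le _ hf.1 hγ1 _
  have hmn : n ≤ m * n := Nat.le_mul_of_pos_left n hm
  have hfx : v.valuation K ((fun y => f.eval y)^[n] x - γ) < 1 := by
    rw [hx, ← Function.iterate_add_apply, Nat.add_sub_cancel' hmn]
    exact iter_mul _ hf.1 hγ1 h1 n
  have hev : (f.comp^[n] X - C γ).eval x = (fun y => f.eval y)^[n] x - γ := by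
    rw [eval_sub, eval_C, iterate_comp_eval, eval_X]
  -- the leading coefficient
  have hlead : ∀ n : ℕ, v.valuation K (f.comp^[n] X).leadingCoeff = 1 := by
    intro n
    induction n with
    | zero => simp
    | succ n ih =>
        rw [Function.iterate_succ_apply', leadingCoeff_comp, map_mul, map_pow, ih, one_pow, mul_one]
        · exact hf.2
        · rw [natDegree_iterate_comp, natDegree_X, mul_one]
          exact pow_ne_zero _ (by omega)
  have hdeg : (C γ).degree < (f.comp^[n] X).degree := by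
    refine degree_C_le.trans_lt ?_
    rw [← natDegree_pos_iff_degree_pos, natDegree_iterate_comp, natDegree_X, mul_one]
    exact pow_pos (by omega) _
  have hlc : v.valuation K (f.comp^[n] X - C γ).leadingCoeff = 1 := by
    rw [leadingCoeff_sub_of_degree_lt hdeg]
    exact hlead n
  -- a root close to `x`
  set h : L[X] := (f.comp^[n] X - C γ).map (algebraMap K L) with hh
  have hroot : ∃ β ∈ h.roots, P.valuation L (algebraMap K L x - β) < 1 := by
    by_contra hc
    push Not at hc
    have e1 : h.eval (algebraMap K L x) = h.leadingCoeff * (h.roots.map fun β => algebraMap K L x - β).prod := by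
      conv_lhs => rw [hs.eq_prod_roots]
      rw [eval_mul, eval_C, eval_multiset_prod, Multiset.map_map]
      congr 2
      apply Multiset.map_congr rfl
      intro β _
      simp
    have e2 : P.valuation L (h.eval (algebraMap K L x)) < 1 := by
      rw [hh, eval_map_algebraMap, aeval_algebraMap_apply]
      refine up_lt v P hP ?_
      rw [coe_aeval_eq_eval, hev]
      exact hfx
    have e3 : P.valuation L h.leadingCoeff = 1 := by
      rw [hh, leadingCoeff_map]
      exact up_one v P hP hlc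
    rw [e1, map_mul, e3, one_mul, map_multiset_prod, Multiset.map_map] at e2
    refine absurd e2 (not_lt.2 ?_)
    refine Multiset.one_le_prod_of_one_le fun y hy => ?_
    rw [Multiset.mem_map] at hy
    obtain ⟨β, hβm, rfl⟩ := hy
    exact hc β hβm
  obtain ⟨β, hβm, hclose⟩ := hroot
  have hxL : P.valuation L (algebraMap K L x) ≤ 1 := up_le v P hP hx1
  have hβ1 : P.valuation L β ≤ 1 := by
    have e : β = algebraMap K L x - (algebraMap K L x - β) := by ring
    rw [e]
    exact ((P.valuation L).map_sub _ _).trans (max_le hxL hclose.le)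
  have f1 := frob_ext P Φ _ hΦ hβ1
  have f2 := frob_ext P Φ _ hΦ hxL
  rw [Φ.commutes] at f2
  have f3 := pow_sub_lt (P.valuation L) hβ1 hxL (by rwa [Valuation.map_sub_swap]) (Ideal.absNorm v.asIdeal)
  refine hβ β hβm ?_
  have e : Φ β - β = (Φ β - β ^ Ideal.absNorm v.asIdeal) + (β ^ Ideal.absNorm v.asIdeal -
    algebraMap K L x ^ Ideal.absNorm v.asIdeal) - (algebraMap K L x - algebraMap K L x ^ Ideal.absNorm v.asIdeal) +
      (algebraMap K L x - β) := by ring
  rw [e]
  exact (P.valuation L).map_add_lt ((P.valuation L).map_sub_lt ((P.valuation L).map_add_lt f1 f3) f2) hclose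

end main

end Pool.Agent.P8H74.WP
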