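import Pool.Agent.P8H74.WP.Loc
import Pool.Agent.K3h73.RS.Cheb

/-!
# One prime decides
-/

set_option autoImplicit false

open NumberField IsDedekindDomain Polynomial

namespace Pool.Agent.P8H74.WP

open Pool.Agent.K3h30.RS (PosProportion Above)

lemma pos_mono {K : Type} [Field K] [NumberField K] {P Q : HeightOneSpectrum (𝓞 K) → Prop} (h : PosProportion P)
    (hPQ : ∀ v, P v → Q v) : PosProportion Q := by
  obtain ⟨c, hc, h1⟩ := h
  refine ⟨c, hc, h1.mono fun X hX => hX.trans ?_⟩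
  have hfin : Finite {v : HeightOneSpectrum (𝓞 K) // Q v ∧ Ideal.absNorm v.asIdeal ≤ X} := by
    have h2 : {I : Ideal (𝓞 K) | Ideal.absNorm I ≤ X}.Finite := Ideal.finite_setOfPred_absNorm_le X
    have := h2.to_subtype
    refine Finite.of_injective (fun v : {v : HeightOneSpectrum (𝓞 K) // Q v ∧ Ideal.absNorm v.asIdeal ≤ X} =>
      (⟨v.1.asIdeal, v.2.2⟩ : {I : Ideal (𝓞 K) | Ideal.absNorm I ≤ X})) ?_
    intro a b hab
    exact Subtype.ext (HeightOneSpectrum.ext (congrArg Subtype.val hab))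
  exact_mod_cast Nat.card_le_card_of_injective
    (fun v : {v : HeightOneSpectrum (𝓞 K) // P v ∧ Ideal.absNorm v.asIdeal ≤ X} =>
      (⟨v.1, hPQ _ v.2.1, v.2.2⟩ : {v : HeightOneSpectrum (𝓞 K) // Q v ∧ Ideal.absNorm v.asIdeal ≤ X}))
    (fun a b hab => by
      have h3 := congrArg (fun z => z.1) hab
      exact Subtype.ext h3)

lemma pos_nonempty {K : Type} [Field K] [NumberField K] {P : HeightOneSpectrum (𝓞 K) → Prop} (h : PosProportion P) :
    ∃ v, P v := by
  obtain ⟨c, hc, h1⟩ := h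
  obtain ⟨X, h2, h3⟩ := (h1.and (Filter.eventually_ge_atTop 2)).exists
  by_contra hne
  push Not at hne
  have : IsEmpty {v : HeightOneSpectrum (𝓞 K) // P v ∧ Ideal.absNorm v.asIdeal ≤ X} := ⟨fun v => hne _ v.2.1⟩
  rw [Nat.card_of_isEmpty, Nat.cast_zero] at h2
  have h4 : 0 < Nat.primeCounting X := by
    have : Nat.primeCounting 2 ≤ Nat.primeCounting X := Nat.monotone_primeCounting h3
    have h5 : Nat.primeCounting 2 = 1 := by decide
    omega
  have h6 : (0 : ℝ) < c * Nat.primeCounting X := mul_pos hc (by exact_mod_cast h4)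
  linarith

/-- existence of the Frobenius automorphism -/
theorem exists_frob (F L : Type) [Field F] [NumberField F] [Field L] [NumberField L] [Algebra F L]
    [IsGalois F L] (t : HeightOneSpectrum (𝓞 F)) (P : HeightOneSpectrum (𝓞 L))
    (hP : P.asIdeal.comap (algebraMap (𝓞 F) (𝓞 L)) = t.asIdeal) :
    ∃ Φ : L ≃ₐ[F] L, ∀ x : 𝓞 L,
      P.valuation L (Φ (x : L) - (x : L) ^ (Ideal.absNorm t.asIdeal)) < 1 := by
  have hG : IsGaloisGroup (L ≃ₐ[F] L) (𝓞 F) (𝓞 L) := inferInstance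
  have hs : SMulCommClass (L ≃ₐ[F] L) (𝓞 F) (𝓞 L) := hG.commutes
  have hinv : Algebra.IsInvariant (𝓞 F) (𝓞 L) (L ≃ₐ[F] L) := hG.isInvariant
  have hfin : Finite (𝓞 L ⧸ P.asIdeal) := Ring.HasFiniteQuotients.finiteQuotient P.ne_bot
  have hpr := P.isPrime
  obtain ⟨Φ, hΦ⟩ := IsArithFrobAt.exists_of_isInvariant (𝓞 F) (L ≃ₐ[F] L) P.asIdeal
  refine ⟨Φ, fun x => ?_⟩
  have h1 : Φ • x - x ^ Nat.card (𝓞 F ⧸ P.asIdeal.under (𝓞 F)) ∈ P.asIdeal := hΦ x
  have h2 : P.asIdeal.under (𝓞 F) = t.asIdeal := hP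
  rw [h2, ← Submodule.cardQuot_apply, ← Ideal.absNorm_apply,
    ← P.valuation_lt_one_iff_mem (K := L)] at h1
  have h3 : ((Φ • x - x ^ Ideal.absNorm t.asIdeal : 𝓞 L) : L) =
      Φ (x : L) - (x : L) ^ (Ideal.absNorm t.asIdeal) := by
    push_cast
    rfl
  rw [← h3]
  exact h1

lemma exists_above (K L : Type) [Field K] [NumberField K] [Field L] [NumberField L] [Algebra K L]
    (v : HeightOneSpectrum (𝓞 K)) :
    ∃ P : HeightOneSpectrum (𝓞 L), P.asIdeal.comap (algebraMap (𝓞 K) (𝓞 L)) = v.asIdeal := by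
  have hpr := v.isPrime
  have hinj : Function.Injective (algebraMap (𝓞 K) (𝓞 L)) := FaithfulSMul.algebraMap_injective _ _
  obtain ⟨Q, hQ, hQv⟩ := Ideal.exists_ideal_over_prime_of_isIntegral_of_isDomain (S := 𝓞 L) v.asIdeal (by
    rw [(RingHom.injective_iff_ker_eq_bot _).1 hinj]
    exact bot_le)
  refine ⟨⟨Q, hQ, ?_⟩, hQv⟩
  rintro rfl
  apply v.ne_bot
  rw [← hQv]
  exact Ideal.comap_bot_of_injective _ hinj

lemma finite_below (K L : Type) [Field K] [NumberField K] [Field L] [NumberField L] [Algebra K L]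
    (B : Set (HeightOneSpectrum (𝓞 L))) (hB : B.Finite) :
    {v : HeightOneSpectrum (𝓞 K) | ∃ P ∈ B, P.asIdeal.comap (algebraMap (𝓞 K) (𝓞 L)) = v.asIdeal}.Finite := by
  refine Set.Finite.of_finite_image (f := fun v : HeightOneSpectrum (𝓞 K) => v.asIdeal)
    ((hB.image fun P => P.asIdeal.comap (algebraMap (𝓞 K) (𝓞 L))).subset ?_) ?_
  · rintro _ ⟨v, ⟨P, hP, h⟩, rfl⟩
    exact ⟨P, hP, h⟩
  · intro a _ b _ hab
    exact HeightOneSpectrum.ext hab

lemma iter_comp_map {K L : Type} [Field K] [Field L] [Algebra K L] (f : K[X]) (n : ℕ) :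
    (f.comp^[n] X).map (algebraMap K L) = (f.map (algebraMap K L)).comp^[n] X := by
  induction n with
  | zero => simp
  | succ n ih => rw [Function.iterate_succ_apply', Function.iterate_succ_apply', Polynomial.map_comp, ih]

theorem one_prime (hgfn : S_GFN) {K : Type} [Field K] [NumberField K] (f : K[X]) (hd : 1 ≤ f.natDegree) {r : ℕ}
    (γ : Fin r → K) (h : ∃ v, Good v f ∧ ∀ i, ¬ PeriodicMod v f (γ i)) (bad : Finset (HeightOneSpectrum (𝓞 K))) :
    PosProportion (fun v => v ∉ bad ∧ Good v f ∧ ∀ i, ¬ PeriodicMod v f (γ i)) := by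
  classical
  obtain ⟨v₀, hgood, hper⟩ := h
  have hf0 : f ≠ 0 := by
    rintro rfl
    simp at hd
  set n : ℕ := Ideal.absNorm v₀.asIdeal with hn
  have hq : 1 < n := by
    have h1 : Ideal.absNorm v₀.asIdeal ≠ 1 := fun h => v₀.isPrime.ne_top (Ideal.absNorm_eq_one_iff.1 h)
    have h2 : Ideal.absNorm v₀.asIdeal ≠ 0 := fun h => v₀.ne_bot (Ideal.absNorm_eq_zero_iff.1 h)
    omega
  have hdeg : ∀ i, (f.comp^[n] X - C (γ i)) ≠ 0 := by
    intro i h0
    have h1 := congrArg natDegree h0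
    rw [natDegree_sub_C, natDegree_iterate_comp, natDegree_X, mul_one, natDegree_zero] at h1
    exact (pow_ne_zero n (by omega : f.natDegree ≠ 0)) h1
  set h : K[X] := ∏ i, (f.comp^[n] X - C (γ i)) with hh
  have hh0 : h ≠ 0 := Finset.prod_ne_zero_iff.2 fun i _ => hdeg i
  let L := h.SplittingField
  have hchar : CharZero L := charZero_of_injective_algebraMap (algebraMap K L).injective
  have hNF : NumberField L := NumberField.of_module_finite K L
  have hnorm : Normal K L := Normal.of_isSplittingField h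
  have hgal : IsGalois K L := { }
  have hsplit : ∀ i, ((f.comp^[n] X - C (γ i)).map (algebraMap K L)).Splits := by
    intro i
    have h1 : (h.map (algebraMap K L)).Splits := SplittingField.splits h
    refine h1.of_dvd ?_ ?_
    · exact (Polynomial.map_ne_zero_iff (algebraMap K L).injective).2 hh0
    · exact Polynomial.map_dvd _ (Finset.dvd_prod_of_mem _ (Finset.mem_univ i))
  obtain ⟨P₀, hP₀⟩ := exists_above K L v₀
  obtain ⟨Φ, hΦ⟩ := exists_frob K L v₀ P₀ hP₀
  -- `Φ` moves all the roots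
  have hmove : ∀ i, ∀ β ∈ ((f.comp^[n] X - C (γ i)).map (algebraMap K L)).roots, Φ β ≠ β := by
    intro i β hβ
    refine no_fixed v₀ P₀ hP₀ hgood hd (hper i) Φ hq hΦ (n := n) le_rfl ?_
    have h1 : ((f.comp^[n] X - C (γ i)).map (algebraMap K L)).eval β = 0 := by
      rw [mem_roots', IsRoot.def] at hβ
      exact hβ.2
    rw [Polynomial.map_sub, map_C, eval_sub, eval_C, sub_eq_zero] at h1
    rw [← h1]
    rw [iter_comp_map f n, iterate_comp_eval, eval_X]
  -- the bad primes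
  have hB1 : {v : HeightOneSpectrum (𝓞 K) | ¬ Good v f}.Finite := hgfn K f hf0
  have hB2 : {v : HeightOneSpectrum (𝓞 K) | ∃ i, 1 < v.valuation K (γ i)}.Finite := by
    have : {v : HeightOneSpectrum (𝓞 K) | ∃ i, 1 < v.valuation K (γ i)} =
        ⋃ i, {v : HeightOneSpectrum (𝓞 K) | 1 < v.valuation K (γ i)} := by
      ext v
      simp
    rw [this]
    exact Set.finite_iUnion fun i => HeightOneSpectrum.Support.finite (𝓞 K) (γ i)
  set BL : Set (HeightOneSpectrum (𝓞 L)) := ⋃ i, ⋃ β ∈ ((f.comp^[n] X - C (γ i)).map (algebraMap K L)).roots.toFinset,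
    {P | 1 < P.valuation L (Φ β - β)⁻¹} with hBL
  have hBLf : BL.Finite := Set.finite_iUnion fun i => Set.Finite.biUnion (Finset.finite_toSet _)
    fun β _ => HeightOneSpectrum.Support.finite (𝓞 L) _
  have hB3 := finite_below K L BL hBLf
  have hcheb := Pool.Agent.K3h73.RS.t_CHEB K L Φ (bad ∪ hB1.toFinset ∪ hB2.toFinset ∪ hB3.toFinset)
  refine pos_mono hcheb ?_
  rintro v ⟨hv, P, ⟨v', hv', hPv⟩, hfrob⟩
  rw [Set.mem_singleton_iff] at hv'
  rw [hv'] at hPv
  simp only [Finset.mem_union, Set.Finite.mem_toFinset, not_or] at hv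
  obtain ⟨⟨⟨g1, g2⟩, g3⟩, g4⟩ := hv
  have hg : Good v f := by
    by_contra hc
    exact g2 hc
  refine ⟨g1, hg, fun i => spread v P hPv hg hd ?_ Φ hfrob (hsplit i) fun β hβ hlt => ?_⟩
  · by_contra hc
    exact g3 ⟨i, not_le.1 hc⟩
  · apply g4
    refine ⟨P, ?_, hPv⟩
    rw [hBL, Set.mem_iUnion]
    refine ⟨i, ?_⟩
    rw [Set.mem_iUnion₂]
    refine ⟨β, Multiset.mem_toFinset.2 hβ, ?_⟩
    have h1 : P.valuation L (Φ β - β) ≠ 0 := by
      rw [Ne, map_eq_zero, sub_eq_zero]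
      exact hmove i β hβ
    show 1 < P.valuation L (Φ β - β)⁻¹
    rw [map_inv₀]
    exact (one_lt_inv₀ (pos_iff_ne_zero.2 h1)).2 hlt

/-- the equivalences -/
theorem tfae_main (hgfn : S_GFN) {K : Type} [Field K] [NumberField K] (f : K[X]) (hd : 1 ≤ f.natDegree) {r : ℕ}
    (γ : Fin r → K) : List.TFAE [∃ v, Good v f ∧ ∀ i, ¬ PeriodicMod v f (γ i),
      {v | Good v f ∧ ∀ i, ¬ PeriodicMod v f (γ i)}.Infinite,
      PosProportion (fun v => Good v f ∧ ∀ i, ¬ PeriodicMod v f (γ i))] := by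
  classical
  tfae_have 1 → 3 := fun h => pos_mono (one_prime hgfn f hd γ h ∅) fun v hv => hv.2
  tfae_have 3 → 1 := fun h => pos_nonempty h
  tfae_have 2 → 1 := fun h => h.nonempty
  tfae_have 1 → 2 := by
    intro h hfin
    obtain ⟨v, h1, h2⟩ := pos_nonempty (one_prime hgfn f hd γ h hfin.toFinset)
    exact h1 ((Set.Finite.mem_toFinset _).2 h2)
  tfae_finish

end Pool.Agent.P8H74.WP
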