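import Pool.Agent.P8H74.WP.Stm2
import Pool.Agent.K3h30.RS.Defs

/-!
# Project WP, third part: for EVERY rational map and every given points, almost all further points. Packages.
-/

set_option autoImplicit false

open NumberField IsDedekindDomain Polynomial

namespace Pool.Agent.P8H74.WP

open Pool.Agent.K3h30.RS (PosProportion)

/-- **DIV** (70 lines, Mathlib only). For a set of primes of positive lower density the product of the `1 - 1 / N v` diverges
to zero. Proof: it is enough that `∑ 1 / N v = ∞` over the `v` with `P v` (then a finite `F` with `∑ v ∈ F, 1 / N v ≥ log (1 / ε)` and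
`1 - x ≤ exp (-x)`). In `ENNReal`, with `w n = 1 / (n (n + 1))`, `1 / m = ∑ n ≥ m, w n`:
`∑ v, 1 / N v = ∑ n, A n * w n`, `A n = #{v | P v, N v ≤ n} ≥ c π(n)` for `n ≥ n₀`, and `∑ p prime, 1 / p = ∑ n, π(n) * w n = ∞`
(`ENNReal.tsum_comm`, Mathlib: `Nat.Primes.not_summable_one_div` or `not_summable_one_div_on_primes`); the finitely many
terms `n < n₀` are finite. -/
def S_DIV : Prop :=
  ∀ (K : Type) [Field K] [NumberField K] (P : HeightOneSpectrum (𝓞 K) → Prop), PosProportion P → ∀ ε : ℝ, 0 < ε →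
    ∃ F : Finset (HeightOneSpectrum (𝓞 K)), (∀ v ∈ F, P v) ∧
      ∏ v ∈ F, (1 - 1 / (Ideal.absNorm v.asIdeal : ℝ)) ≤ ε

/-- **CR1** (60 lines; adapt `Pool/Agent/P8H96/WP/Crt.lean`; `r = 1`, one excluded class modulo each `v ∈ F`). -/
def S_CR1 : Prop :=
  ∀ (K : Type) [Field K] [NumberField K] (F : Finset (HeightOneSpectrum (𝓞 K))) (E : Set (𝓞 K)),
    (∀ v ∈ F, ∃ a : 𝓞 K, ∀ x ∈ E, x - a ∉ v.asIdeal) → ∃ I : Ideal (𝓞 K), I ≠ ⊥ ∧
      ((Ideal.Quotient.mk I '' E).ncard : ℝ) ≤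
        (∏ v ∈ F, (1 - 1 / (Ideal.absNorm v.asIdeal : ℝ))) * (Nat.card (𝓞 K ⧸ I) : ℝ)

end Pool.Agent.P8H74.WP
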