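import Pool.Agent.P8H74.WP.RatFin
import Pool.Agent.P8H74.WP.Stm3

/-!
# Rational maps: almost every further point
-/

set_option autoImplicit false

open NumberField IsDedekindDomain Polynomial

namespace Pool.Agent.P8H74.WP

open Pool.Agent.K3h30.RS (PosProportion Above)

variable {K : Type} [Field K] [NumberField K]

lemma cross_comm_lt (v : HeightOneSpectrum (𝓞 K)) {x y : K × K} (h : v.valuation K (cross x y) < 1) :
    v.valuation K (cross y x) < 1 := by
  have e : cross y x = - cross x y := by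
    unfold cross
    ring
  rw [e, Valuation.map_neg]
  exact h

/-- primitive vectors with the same reduction: periodicity -/
lemma per_of_prim (v : HeightOneSpectrum (𝓞 K)) {d : ℕ} {f g : K[X]} (h : RG (v.valuation K) d f g) {x y : K × K}
    (hx : Prim (v.valuation K) x) (hy : Prim (v.valuation K) y) (hxy : v.valuation K (cross x y) < 1)
    (hp : RPer v d f g x) : RPer v d f g y := by
  obtain ⟨hA, hB⟩ := Pool.Agent.P8H83.WP.cng K _ (v.valuation K)
  have key : ∀ m : ℕ, v.valuation K (cross ((rmap d f g)^[m] x) ((rmap d f g)^[m] y)) < 1 := by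
    intro m
    induction m with
    | zero => exact hxy
    | succ m ih =>
        rw [Function.iterate_succ_apply', Function.iterate_succ_apply']
        exact hB d f g h.1 h.2 _ _ (h.prim_iter _ hx m) (h.prim_iter _ hy m) ih
  obtain ⟨m, hm, h1⟩ := (per_prim h hx).1 hp
  refine (per_prim h hy).2 ⟨m, hm, ?_⟩
  have h2 := hA _ _ _ (h.prim_iter _ hy m) (h.prim_iter _ hx m) hx (cross_comm_lt v (key m)) h1
  exact hA _ _ _ (h.prim_iter _ hy m) hx hy h2 hxy

lemma sc_inv {c : K} (hc : c ≠ 0) (x : K × K) : sc c⁻¹ (sc c x) = x := by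
  unfold sc
  simp only [← mul_assoc, inv_mul_cancel₀ hc, one_mul]

/-- points with the same reduction: periodicity -/
lemma per_congr (v : HeightOneSpectrum (𝓞 K)) {d : ℕ} {f g : K[X]} (hd : 1 ≤ d) (hf : f.natDegree ≤ d)
    (hg : g.natDegree ≤ d) (h : GGood v d f g) {x y : K × K} (hx0 : x ≠ 0) (hy0 : y ≠ 0) (hxy : Cong v x y)
    (hp : RPer v d f g x) : RPer v d f g y := by
  obtain ⟨c, hc, hgood⟩ := h
  have hf' : (C c * f).natDegree ≤ d := (natDegree_C_mul_le c f).trans hf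
  have hg' : (C c * g).natDegree ≤ d := (natDegree_C_mul_le c g).trans hg
  have hG := rg Pool.Agent.P8H53.WP.res v hd hf' hg' hgood
  rw [← per_model v d f g hc] at hp ⊢
  obtain ⟨a, ha, hax, -⟩ := exists_prim (v.valuation K) hx0
  obtain ⟨b, hb, hby, -⟩ := exists_prim (v.valuation K) hy0
  rw [← per_sc v d _ _ ha] at hp
  rw [← per_sc v d _ _ hb]
  refine per_of_prim v hG hax hby ?_ hp
  rw [← cong_prim hax hby, cong_sc v ha hb]
  exact hxy

/-- one more point -/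
theorem add_point {d : ℕ} (hd : 1 ≤ d) (f g : K[X])
    (hf : f.natDegree ≤ d) (hg : g.natDegree ≤ d) {r : ℕ} (γ : Fin r → K × K) (hγ0 : ∀ i, γ i ≠ 0)
    {δ : K × K} (hδ : δ ≠ 0) (i₀ : Fin r) (v : HeightOneSpectrum (𝓞 K)) (h1 : GGood v d f g)
    (h2 : ∀ i, ¬ RPer v d f g (γ i)) (h3 : Cong v δ (γ i₀)) :
    PosProportion (fun v => (GGood v d f g ∧ ∀ i, ¬ RPer v d f g (γ i)) ∧ ¬ RPer v d f g δ) := by
  have h4 := gone_prime hd f g hf hg (Fin.cons δ γ : Fin (r + 1) → K × K) (by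
    intro i
    refine Fin.cases ?_ (fun j => ?_) i
    · exact hδ
    · exact hγ0 j) ⟨v, h1, by
    intro i
    refine Fin.cases ?_ (fun j => ?_) i
    · exact fun hp => h2 i₀ (per_congr v hd hf hg h1 hδ (hγ0 i₀) h3 hp)
    · exact h2 j⟩ ∅
  refine pos_mono h4 ?_
  rintro w ⟨-, h5, h6⟩
  exact ⟨⟨h5, fun i => h6 i.succ⟩, h6 0⟩

/-- almost every further point -/
theorem almost_new (hdiv : S_DIV) (hcr1 : S_CR1) {d : ℕ} (hd : 1 ≤ d) (f g : K[X])
    (hf : f.natDegree ≤ d) (hg : g.natDegree ≤ d) {r : ℕ} (γ : Fin r → K × K) (hγ0 : ∀ i, γ i ≠ 0)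
    (i₀ : Fin r) (hi₀ : (γ i₀).2 ≠ 0)
    (h : ∃ v, GGood v d f g ∧ ∀ i, ¬ RPer v d f g (γ i)) (ε : ℝ) (hε : 0 < ε) :
    ∃ I : Ideal (𝓞 K), I ≠ ⊥ ∧ ((Ideal.Quotient.mk I '' {δ : 𝓞 K | ¬ PosProportion (fun v =>
      (GGood v d f g ∧ ∀ i, ¬ RPer v d f g (γ i)) ∧ ¬ RPer v d f g ((δ : K), 1))}).ncard : ℝ) ≤
        ε * (Nat.card (𝓞 K ⧸ I) : ℝ) := by
  classical
  obtain ⟨t, ht⟩ : ∃ t : K, t = (γ i₀).1 / (γ i₀).2 := ⟨_, rfl⟩
  have h1 := gone_prime hd f g hf hg γ hγ0 h (fin_gt t).toFinset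
  obtain ⟨F, hF1, hF2⟩ := hdiv K _ h1 ε hε
  obtain ⟨I, hI, hI2⟩ := hcr1 K F {δ : 𝓞 K | ¬ PosProportion (fun v =>
      (GGood v d f g ∧ ∀ i, ¬ RPer v d f g (γ i)) ∧ ¬ RPer v d f g ((δ : K), 1))} (by
    intro v hv
    obtain ⟨h2, h3, h4⟩ := hF1 v hv
    have h5 : v.valuation K t ≤ 1 := by
      by_contra hc
      exact h2 ((Set.Finite.mem_toFinset _).2 (not_le.1 hc))
    obtain ⟨a, ha⟩ := v.exists_valuation_sub_lt_of_integer h5 (γ := 1)
    refine ⟨a, fun x hx hxa => hx ?_⟩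
    refine add_point hd f g hf hg γ hγ0 (δ := ((x : K), 1)) (fun h0 => one_ne_zero (congrArg Prod.snd h0)) i₀ v h3 h4 ?_
    have h6 : v.valuation K (algebraMap (𝓞 K) K (x - a)) < 1 := (v.valuation_lt_one_iff_mem _).2 hxa
    have h7 : v.valuation K ((x : K) - t) < 1 := by
      have e : ((x : K) - t) = algebraMap (𝓞 K) K (x - a) + (algebraMap (𝓞 K) K a - t) := by
        rw [map_sub]
        ring
      rw [e]
      exact (v.valuation K).map_add_lt h6 ha
    have h8 : 0 < v.valuation K (γ i₀).2 := pos_iff_ne_zero.2 ((_root_.map_ne_zero _).2 hi₀)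
    unfold Cong
    have e : cross ((x : K), 1) (γ i₀) = (γ i₀).2 * ((x : K) - t) := by
      unfold cross
      rw [ht]
      field_simp
    rw [e, map_mul]
    calc v.valuation K (γ i₀).2 * v.valuation K ((x : K) - t) < v.valuation K (γ i₀).2 * 1 :=
          (mul_lt_mul_iff_right₀ h8).2 h7
      _ = 1 * v.valuation K (γ i₀).2 := by rw [mul_one, one_mul]
      _ ≤ _ := by
          refine mul_le_mul' ?_ (le_max_right _ _)
          rw [map_one]
          exact le_max_right _ _)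
  exact ⟨I, hI, hI2.trans (mul_le_mul_of_nonneg_right hF2 (Nat.cast_nonneg _))⟩

end Pool.Agent.P8H74.WP
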