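import Mathlib

/-!
# Project WP, fourth part: for EVERY pair of points, almost all maps x^d + c. Packages (Mathlib only).
-/

set_option autoImplicit false

open Polynomial

namespace Pool.Agent.P8H74.WP

/-- **PW3** (30 lines). `3 ≤ d`, `d ∣ q - 1`: the number of the `d`-th powers is at most `(q - 1) / d + 1 ≤ (q + 2) / 3` (a nonzero
`d`-th power is a root of `X ^ ((q - 1) / d) - 1`, `Polynomial.card_nthRoots`), so at most `2 (q + 2) / 3` of the `c` are
excluded. -/
def S_PW3 : Prop :=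
  ∀ (k : Type) [Field k] [Finite k] (d : ℕ), 3 ≤ d → d ∣ Nat.card k - 1 → ∀ a b : k,
    Nat.card k ≤ 4 * {c : k | (∀ y, y ^ d ≠ a - c) ∧ ∀ y, y ^ d ≠ b - c}.ncard + 5

/-- **PW2** (60 lines). `d = 2`, `q` odd. If `a = b` clear. Otherwise let `t = b - a ≠ 0`; for every `z ≠ 0` let `w = (z + t / z) / 2`,
`u = (t / z - z) / 2`: `w ^ 2 - u ^ 2 = t`, `w - u = z`, so there are `q - 1` pairs `(u, w)`, and `c = a - u ^ 2` has `a - c = u ^ 2`,
`b - c = w ^ 2`; every `c` comes from at most `4` pairs. So at least `(q - 1) / 4` of the `c` have `a - c` and `b - c` squares; at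
most `(q + 1) / 2` of the `c` have `a - c` a square, the same for `b`; by inclusion and exclusion at least
`q - (q + 1) + (q - 1) / 4 = (q - 5) / 4` of the `c` have neither. -/
def S_PW2 : Prop :=
  ∀ (k : Type) [Field k] [Finite k], 2 ∣ Nat.card k - 1 → ∀ a b : k,
    Nat.card k ≤ 4 * {c : k | (∀ y, y ^ 2 ≠ a - c) ∧ ∀ y, y ^ 2 ≠ b - c}.ncard + 5

end Pool.Agent.P8H74.WP
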