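import Mathlib
import Pool.Agent.P8H74.WP.Stm4

set_option autoImplicit false

open Polynomial

namespace Pool.Agent.P8H74.WP

lemma card_sq {k : Type} [Field k] [Fintype k] [DecidableEq k] (h : 2 ∣ Fintype.card k - 1) :
    2 * (Finset.univ.image (fun y : k => y ^ 2)).card ≤ Fintype.card k + 1 := by
  classical
  obtain ⟨n, hn⟩ := h
  have hq : 1 < Fintype.card k := Fintype.one_lt_card
  have hn0 : 0 < n := by omega
  have h1 : (Finset.univ.image (fun y : k => y ^ 2)) ⊆ insert 0 (Polynomial.nthRoots n (1 : k)).toFinset := by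
    intro z hz
    obtain ⟨y, -, rfl⟩ := Finset.mem_image.1 hz
    by_cases hy : y = 0
    · simp [hy]
    · refine Finset.mem_insert_of_mem (Multiset.mem_toFinset.2 ((Polynomial.mem_nthRoots hn0).2 ?_))
      rw [← pow_mul, ← hn]
      exact FiniteField.pow_card_sub_one_eq_one y hy
  have h2 := Finset.card_le_card h1
  have h3 : (insert (0 : k) (Polynomial.nthRoots n (1 : k)).toFinset).card ≤ n + 1 :=
    (Finset.card_insert_le _ _).trans (Nat.add_le_add_right ((Multiset.toFinset_card_le _).trans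
      (Polynomial.card_nthRoots n 1)) 1)
  omega

lemma both {k : Type} [Field k] [Fintype k] [DecidableEq k] (h2 : (2 : k) ≠ 0) (a t : k) (ht : t ≠ 0) :
    Fintype.card k - 1 ≤ 4 * (Finset.univ.filter fun c : k => (∃ y, y ^ 2 = a - c) ∧ ∃ y, y ^ 2 = a + t - c).card := by
  classical
  have h1 : ((Finset.univ : Finset k).erase 0).card = Fintype.card k - 1 := by
    rw [Finset.card_erase_of_mem (Finset.mem_univ _), Finset.card_univ]
  rw [← h1]
  have h3 : ((Finset.univ : Finset k).erase 0).card ≤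
      4 * (((Finset.univ : Finset k).erase 0).image (fun z => a - ((t / z - z) / 2) ^ 2)).card := by
    refine Finset.card_le_mul_card_image _ 4 ?_
    intro c _
    have h4 : ((Finset.univ.erase (0 : k)).filter fun z => a - ((t / z - z) / 2) ^ 2 = c) ⊆
        (X ^ 4 + (C (- (2 * t + 4 * (a - c))) * X ^ 2 + C (t ^ 2)) : k[X]).roots.toFinset := by
      intro z hz
      obtain ⟨hz1, hz2⟩ := Finset.mem_filter.1 hz
      have hz0 : z ≠ 0 := (Finset.mem_erase.1 hz1).1
      rw [Multiset.mem_toFinset, mem_roots']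
      refine ⟨?_, ?_⟩
      · have : (X ^ 4 + (C (- (2 * t + 4 * (a - c))) * X ^ 2 + C (t ^ 2)) : k[X]).Monic := by
          monicity!
        exact this.ne_zero
      · simp only [IsRoot.def, eval_add, eval_mul, eval_pow, eval_X, eval_C]
        rw [← hz2]
        field_simp
        ring
    refine (Finset.card_le_card h4).trans ((Multiset.toFinset_card_le _).trans ((card_roots' _).trans ?_))
    compute_degree
  refine h3.trans (Nat.mul_le_mul_left 4 (Finset.card_le_card ?_))
  intro c hc
  obtain ⟨z, hz, rfl⟩ := Finset.mem_image.1 hc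
  have hz0 : z ≠ 0 := (Finset.mem_erase.1 hz).1
  refine Finset.mem_filter.2 ⟨Finset.mem_univ _, ⟨(t / z - z) / 2, by ring⟩, ⟨(t / z + z) / 2, ?_⟩⟩
  field_simp
  ring

theorem pw2 : S_PW2 := by
  intro k _ _ hd a b
  classical
  have : Fintype k := Fintype.ofFinite k
  rw [Nat.card_eq_fintype_card] at hd ⊢
  have hq : 1 < Fintype.card k := Fintype.one_lt_card
  have h2 : (2 : k) ≠ 0 := by
    intro h0
    have h3 : ringChar k = 2 := by
      have h4 : ringChar k ∣ 2 := (ringChar.spec k 2).1 (by exact_mod_cast h0)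
      rcases (Nat.dvd_prime Nat.prime_two).1 h4 with h5 | h5
      · exact absurd h5 (CharP.ringChar_ne_one)
      · exact h5
    have h6 := (FiniteField.even_card_iff_char_two (F := k)).1 h3
    omega
  have hA := card_sq (k := k) hd
  have hset : {c : k | (∀ y, y ^ 2 ≠ a - c) ∧ ∀ y, y ^ 2 ≠ b - c}.ncard =
      (Finset.univ.filter fun c : k => (∀ y, y ^ 2 ≠ a - c) ∧ ∀ y, y ^ 2 ≠ b - c).card := by
    rw [Set.ncard_eq_toFinset_card']
    congr 1
    ext c
    simp
  rw [hset]
  have hcnt : ∀ e : k, (Finset.univ.filter fun c : k => ∃ y, y ^ 2 = e - c).card =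
      (Finset.univ.image (fun y : k => y ^ 2)).card := by
    intro e
    refine Finset.card_bij (fun c _ => e - c) ?_ ?_ ?_
    · intro c hc
      obtain ⟨y, hy⟩ := (Finset.mem_filter.1 hc).2
      exact Finset.mem_image.2 ⟨y, Finset.mem_univ _, hy⟩
    · intro c _ c' _ h
      exact sub_right_injective h
    · intro z hz
      obtain ⟨y, -, rfl⟩ := Finset.mem_image.1 hz
      exact ⟨e - y ^ 2, Finset.mem_filter.2 ⟨Finset.mem_univ _, y, by ring⟩, by ring⟩
  have hunion : (Finset.univ.filter fun c : k => (∀ y, y ^ 2 ≠ a - c) ∧ ∀ y, y ^ 2 ≠ b - c) =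
      (Finset.univ : Finset k) \ ((Finset.univ.filter fun c : k => ∃ y, y ^ 2 = a - c) ∪
        (Finset.univ.filter fun c : k => ∃ y, y ^ 2 = b - c)) := by
    ext c
    simp
  have hc1 := Finset.card_union_add_card_inter (Finset.univ.filter fun c : k => ∃ y, y ^ 2 = a - c)
    (Finset.univ.filter fun c : k => ∃ y, y ^ 2 = b - c)
  have hc2 : (Finset.univ.filter fun c : k => (∀ y, y ^ 2 ≠ a - c) ∧ ∀ y, y ^ 2 ≠ b - c).card =
      Fintype.card k - ((Finset.univ.filter fun c : k => ∃ y, y ^ 2 = a - c) ∪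
        (Finset.univ.filter fun c : k => ∃ y, y ^ 2 = b - c)).card := by
    rw [hunion, Finset.card_sdiff_of_subset (Finset.subset_univ _), Finset.card_univ]
  rw [hcnt a, hcnt b] at hc1
  by_cases hab : a = b
  · subst hab
    rw [Finset.union_self, hcnt a] at hc2
    omega
  · have h7 := both h2 a (b - a) (sub_ne_zero.2 (Ne.symm hab))
    have h8 : (Finset.univ.filter fun c : k => (∃ y, y ^ 2 = a - c) ∧ ∃ y, y ^ 2 = a + (b - a) - c) =
        (Finset.univ.filter fun c : k => ∃ y, y ^ 2 = a - c) ∩ (Finset.univ.filter fun c : k => ∃ y, y ^ 2 = b - c) := by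
      ext c
      simp
    rw [h8] at h7
    omega

end Pool.Agent.P8H74.WP
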