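import Pool.Agent.P8H74.WP.Stm2
import Pool.Agent.P8H74.WP.Loc

/-!
# Rational maps: primitive vectors, Frobenius automorphisms
-/

set_option autoImplicit false

open NumberField IsDedekindDomain Polynomial

namespace Pool.Agent.P8H74.WP

section val

variable {L Γ₀ : Type} [Field L] [LinearOrderedCommGroupWithZero Γ₀] (w : Valuation L Γ₀)

/-- good reduction, in terms of a valuation -/
structure RG (d : ℕ) (f g : L[X]) : Prop where
  fi : ∀ i, w (f.coeff i) ≤ 1
  gi : ∀ i, w (g.coeff i) ≤ 1
  fd : f.natDegree ≤ d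
  gd : g.natDegree ≤ d
  bez : ∃ p q : L[X], (∀ i, w (p.coeff i) ≤ 1) ∧ (∀ i, w (q.coeff i) ≤ 1) ∧ f * p + g * q = 1
  top : w (f.coeff d) = 1 ∨ w (g.coeff d) = 1

lemma hom_le {d : ℕ} {f : L[X]} (hf : ∀ i, w (f.coeff i) ≤ 1) {x : L × L} (h1 : w x.1 ≤ 1) (h2 : w x.2 ≤ 1) :
    w (hom d f x) ≤ 1 := by
  apply w.map_sum_le
  intro i _
  rw [map_mul, map_mul, map_pow, map_pow]
  exact mul_le_one' (hf i) (mul_le_one' (pow_le_one₀ zero_le h1) (pow_le_one₀ zero_le h2))

lemma hom_eq {d : ℕ} {f : L[X]} (hf : f.natDegree ≤ d) {x : L × L} (hx : x.2 ≠ 0) :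
    hom d f x = x.2 ^ d * f.eval (x.1 / x.2) := by
  rw [eval_eq_sum_range' (Nat.lt_succ_of_le hf), Finset.mul_sum]
  refine Finset.sum_congr rfl fun i hi => ?_
  have hid : i ≤ d := Nat.lt_succ_iff.1 (Finset.mem_range.1 hi)
  have e : x.2 ^ d = x.2 ^ i * x.2 ^ (d - i) := by rw [← pow_add, Nat.add_sub_cancel' hid]
  rw [e, div_pow]
  field_simp

lemma hom_top {d : ℕ} {f : L[X]} (hf : ∀ i, w (f.coeff i) ≤ 1) {x : L × L} (h1 : w x.1 = 1) (h2 : w x.2 < 1)
    (ht : w (f.coeff d) = 1) : w (hom d f x) = 1 := by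
  have e : hom d f x = ∑ i ∈ Finset.range d, f.coeff i * (x.1 ^ i * x.2 ^ (d - i)) + f.coeff d * x.1 ^ d := by
    unfold hom
    rw [Finset.sum_range_succ, Nat.sub_self, pow_zero, mul_one]
  have h3 : w (f.coeff d * x.1 ^ d) = 1 := by rw [map_mul, map_pow, ht, h1, one_pow, mul_one]
  have h4 : w (∑ i ∈ Finset.range d, f.coeff i * (x.1 ^ i * x.2 ^ (d - i))) < 1 := by
    apply w.map_sum_lt one_ne_zero
    intro i hi
    rw [map_mul, map_mul, map_pow, map_pow, h1, one_pow, one_mul]
    have h5 : w x.2 ^ (d - i) < 1 := pow_lt_one₀ zero_le h2 (by have := Finset.mem_range.1 hi; omega)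
    exact (mul_le_of_le_one_left' (hf i)).trans_lt h5
  rw [e, w.map_add_eq_of_lt_right (by rw [h3]; exact h4), h3]

lemma RG.prim {d : ℕ} {f g : L[X]} (h : RG w d f g) {x : L × L} (hx : Prim w x) : Prim w (rmap d f g x) := by
  refine ⟨hom_le w h.fi hx.1 hx.2.1, hom_le w h.gi hx.1 hx.2.1, ?_⟩
  rcases lt_or_eq_of_le hx.2.1 with h2 | h2
  · have h1 : w x.1 = 1 := hx.2.2.resolve_right h2.ne
    rcases h.top with ht | ht
    · exact Or.inl (hom_top w h.fi h1 h2 ht)
    · exact Or.inr (hom_top w h.gi h1 h2 ht)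
  · have hx0 : x.2 ≠ 0 := by
      intro h0
      rw [h0, map_zero] at h2
      exact zero_ne_one h2
    have ht : w (x.1 / x.2) ≤ 1 := by rw [map_div₀, h2, div_one]; exact hx.1
    obtain ⟨p, q, hp, hq, hpq⟩ := h.bez
    by_contra hc
    rw [not_or] at hc
    have e1 : w (f.eval (x.1 / x.2)) < 1 := by
      refine lt_of_le_of_ne (eval_le w h.fi ht) fun h5 => hc.1 ?_
      show w (hom d f x) = 1
      rw [hom_eq h.fd hx0, map_mul, map_pow, h2, one_pow, one_mul, h5]
    have e2 : w (g.eval (x.1 / x.2)) < 1 := by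
      refine lt_of_le_of_ne (eval_le w h.gi ht) fun h5 => hc.2 ?_
      show w (hom d g x) = 1
      rw [hom_eq h.gd hx0, map_mul, map_pow, h2, one_pow, one_mul, h5]
    have e3 := congrArg (fun z : L[X] => w (z.eval (x.1 / x.2))) hpq
    simp only [eval_add, eval_mul, eval_one, map_one] at e3
    have e4 : w (f.eval (x.1 / x.2) * p.eval (x.1 / x.2) + g.eval (x.1 / x.2) * q.eval (x.1 / x.2)) < 1 := by
      apply w.map_add_lt
      · rw [map_mul]
        exact (mul_le_of_le_one_right' (eval_le w hp ht)).trans_lt e1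
      · rw [map_mul]
        exact (mul_le_of_le_one_right' (eval_le w hq ht)).trans_lt e2
    rw [e3] at e4
    exact lt_irrefl _ e4

lemma RG.prim_iter {d : ℕ} {f g : L[X]} (h : RG w d f g) {x : L × L} (hx : Prim w x) (n : ℕ) :
    Prim w ((rmap d f g)^[n] x) := by
  induction n with
  | zero => exact hx
  | succ n ih =>
      rw [Function.iterate_succ_apply']
      exact h.prim w ih

variable (hcng : S_CNG)

include hcng

lemma RG.cong_iter {d : ℕ} {f g : L[X]} (h : RG w d f g) {x y : L × L} (hx : Prim w x) (hy : Prim w y)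
    (hxy : w (cross x y) < 1) (n : ℕ) : w (cross ((rmap d f g)^[n] x) ((rmap d f g)^[n] y)) < 1 := by
  induction n with
  | zero => exact hxy
  | succ n ih =>
      rw [Function.iterate_succ_apply', Function.iterate_succ_apply']
      exact (hcng L Γ₀ w).2 d f g h.fi h.gi _ _ (h.prim_iter w hx n) (h.prim_iter w hy n) ih

lemma RG.trans {x y z : L × L} (hx : Prim w x) (hy : Prim w y) (hz : Prim w z) (h1 : w (cross x y) < 1)
    (h2 : w (cross y z) < 1) : w (cross x z) < 1 := (hcng L Γ₀ w).1 x y z hx hy hz h1 h2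

omit hcng in
lemma cross_comm' (x y : L × L) : w (cross x y) = w (cross y x) := by
  rw [← w.map_neg]
  congr 1
  unfold cross
  ring

lemma RG.iter_mul {d : ℕ} {f g : L[X]} (h : RG w d f g) {x : L × L} (hx : Prim w x) {m : ℕ}
    (hm : w (cross ((rmap d f g)^[m] x) x) < 1) (k : ℕ) : w (cross ((rmap d f g)^[m * k] x) x) < 1 := by
  induction k with
  | zero =>
      have e : cross x x = 0 := by unfold cross; ring
      rw [Nat.mul_zero, Function.iterate_zero_apply, e, map_zero]
      exact zero_lt_one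
  | succ k ih =>
      have e : (rmap d f g)^[m * (k + 1)] x = (rmap d f g)^[m] ((rmap d f g)^[m * k] x) := by
        rw [← Function.iterate_add_apply]
        congr 1
        ring
      rw [e]
      exact RG.trans w hcng (h.prim_iter w (h.prim_iter w hx _) _) (h.prim_iter w hx m) hx
        (h.cong_iter w hcng (h.prim_iter w hx _) hx ih m) hm

end val

/-! ### change of fields -/

section fields

/-- a ring homomorphism on vectors -/
def mp {A B : Type} [CommRing A] [CommRing B] (φ : A →+* B) (x : A × A) : B × B := (φ x.1, φ x.2)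

lemma hom_mp {A B : Type} [CommRing A] [CommRing B] (φ : A →+* B) (d : ℕ) (f : A[X]) (x : A × A) :
    hom d (f.map φ) (mp φ x) = φ (hom d f x) := by
  unfold hom mp
  rw [map_sum]
  exact Finset.sum_congr rfl fun i _ => by simp [coeff_map]

lemma iter_mp {A B : Type} [CommRing A] [CommRing B] (φ : A →+* B) (d : ℕ) (f g : A[X]) (x : A × A) (n : ℕ) :
    (rmap d (f.map φ) (g.map φ))^[n] (mp φ x) = mp φ ((rmap d f g)^[n] x) := by
  induction n with
  | zero => rfl
  | succ n ih =>
      rw [Function.iterate_succ_apply', Function.iterate_succ_apply', ih]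
      show (_, _) = (_, _)
      rw [hom_mp, hom_mp]
      rfl

lemma cross_mp {A B : Type} [CommRing A] [CommRing B] (φ : A →+* B) (x y : A × A) :
    cross (mp φ x) (mp φ y) = φ (cross x y) := by
  unfold cross mp
  simp

variable {K L : Type} [Field K] [NumberField K] [Field L] [NumberField L] [Algebra K L]
  (v : HeightOneSpectrum (𝓞 K)) (P : HeightOneSpectrum (𝓞 L))
  (hP : P.asIdeal.comap (algebraMap (𝓞 K) (𝓞 L)) = v.asIdeal)

include hP

lemma RG.up {d : ℕ} {f g : K[X]} (h : RG (v.valuation K) d f g) :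
    RG (P.valuation L) d (f.map (algebraMap K L)) (g.map (algebraMap K L)) where
  fi i := by
    rw [coeff_map]
    exact up_le v P hP (h.fi i)
  gi i := by
    rw [coeff_map]
    exact up_le v P hP (h.gi i)
  fd := natDegree_map_le.trans h.fd
  gd := natDegree_map_le.trans h.gd
  bez := by
    obtain ⟨p, q, hp, hq, e⟩ := h.bez
    refine ⟨p.map (algebraMap K L), q.map (algebraMap K L), fun i => ?_, fun i => ?_, ?_⟩
    · rw [coeff_map]
      exact up_le v P hP (hp i)
    · rw [coeff_map]
      exact up_le v P hP (hq i)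
    · rw [← Polynomial.map_mul, ← Polynomial.map_mul, ← Polynomial.map_add, e, Polynomial.map_one]
  top := by
    rw [coeff_map, coeff_map]
    exact h.top.imp (up_one v P hP) (up_one v P hP)

lemma prim_up {x : K × K} (h : Prim (v.valuation K) x) : Prim (P.valuation L) (mp (algebraMap K L) x) :=
  ⟨up_le v P hP h.1, up_le v P hP h.2.1, h.2.2.imp (up_one v P hP) (up_one v P hP)⟩

variable (hpig : S_PIG) (hcng : S_CNG)

include hpig hcng

/-- the Frobenius automorphism has no primitive fixed solution -/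
theorem rno_fixed {d : ℕ} {f g : K[X]} (h : RG (v.valuation K) d f g) {γ : K × K} (hγp : Prim (v.valuation K) γ)
    (hγ : ¬ ∃ m : ℕ, 0 < m ∧ v.valuation K (cross ((rmap d f g)^[m] γ) γ) < 1) (Φ : L ≃ₐ[K] L)
    (hq : 1 < Ideal.absNorm v.asIdeal)
    (hΦ : ∀ x : 𝓞 L, P.valuation L (Φ (x : L) - (x : L) ^ Ideal.absNorm v.asIdeal) < 1) {n : ℕ}
    (hn : Ideal.absNorm v.asIdeal + 1 ≤ n) {β : L × L} (hβp : Prim (P.valuation L) β)
    (hβ : cross ((rmap d (f.map (algebraMap K L)) (g.map (algebraMap K L)))^[n] β) (mp (algebraMap K L) γ) = 0)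
    (h1 : Φ β.1 = β.1) (h2 : Φ β.2 = β.2) : False := by
  set w := P.valuation L with hw
  have hg := h.up v P hP
  set F := rmap d (f.map (algebraMap K L)) (g.map (algebraMap K L)) with hF
  have hfix : ∀ j, mp (Φ : L →+* L) (F^[j] β) = F^[j] β := by
    intro j
    have e0 : mp (Φ : L →+* L) β = β := Prod.ext h1 h2
    have e1 : (f.map (algebraMap K L)).map (Φ : L →+* L) = f.map (algebraMap K L) := by
      rw [Polynomial.map_map]
      congr 1
      ext x
      exact Φ.commutes x
    have e2 : (g.map (algebraMap K L)).map (Φ : L →+* L) = g.map (algebraMap K L) := by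
      rw [Polynomial.map_map]
      congr 1
      ext x
      exact Φ.commutes x
    have e3 := iter_mp (Φ : L →+* L) d (f.map (algebraMap K L)) (g.map (algebraMap K L)) β j
    rw [e1, e2, e0] at e3
    exact e3.symm
  have hpr : ∀ j, Prim w (F^[j] β) := fun j => hg.prim_iter w hβp j
  obtain ⟨i, j, hij, hjq, hlt⟩ := hpig L P (Ideal.absNorm v.asIdeal) hq (fun j => F^[j] β) hpr
    (fun j => by
      have h3 := frob_ext P Φ _ hΦ (hpr j).1
      have h4 : Φ (F^[j] β).1 = (F^[j] β).1 := congrArg Prod.fst (hfix j)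
      rw [h4, Valuation.map_sub_swap] at h3
      exact h3)
    (fun j => by
      have h3 := frob_ext P Φ _ hΦ (hpr j).2.1
      have h4 : Φ (F^[j] β).2 = (F^[j] β).2 := congrArg Prod.snd (hfix j)
      rw [h4, Valuation.map_sub_swap] at h3
      exact h3)
  have k1 := hg.cong_iter w hcng (hpr i) (hpr j) hlt (n - i)
  rw [← hF, ← Function.iterate_add_apply, ← Function.iterate_add_apply, Nat.sub_add_cancel (by omega),
    show n - i + j = (j - i) + n by omega, Function.iterate_add_apply _ (j - i) n] at k1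
  have hγL : Prim w (mp (algebraMap K L) γ) := prim_up v P hP hγp
  have k2 : w (cross (F^[n] β) (mp (algebraMap K L) γ)) < 1 := by
    rw [hβ, map_zero]
    exact zero_lt_one
  have k3 := hg.cong_iter w hcng (hpr n) hγL k2 (j - i)
  rw [← hF] at k3
  -- F^[j-i] γ ~ F^[j-i] (F^[n] β) ~ F^[n] β ~ γ
  have k4 : w (cross (F^[j - i] (mp (algebraMap K L) γ)) (mp (algebraMap K L) γ)) < 1 := by
    have m1 := hg.prim_iter w hγL (j - i)
    have m2 := hg.prim_iter w (hpr n) (j - i)
    rw [← hF] at m1 m2
    refine RG.trans w hcng m1 m2 hγL ?_ ?_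
    · rw [cross_comm']
      exact k3
    · refine RG.trans w hcng m2 (hpr n) hγL ?_ k2
      rw [cross_comm']
      exact k1
  rw [hF, iter_mp, cross_mp] at k4
  exact hγ ⟨j - i, by omega, down_lt v P hP k4⟩

omit hpig

/-- the spreading of nonperiodicity -/
theorem rspread {d : ℕ} {f g : K[X]} (h : RG (v.valuation K) d f g) {γ : K × K} (hγp : Prim (v.valuation K) γ)
    (Φ : L ≃ₐ[K] L)
    (hΦ : ∀ x : 𝓞 L, P.valuation L (Φ (x : L) - (x : L) ^ Ideal.absNorm v.asIdeal) < 1) {n : ℕ} {H : K[X]}
    (hH : ∀ x : K, H.eval x = cross ((rmap d f g)^[n] (x, 1)) γ) (hlc : v.valuation K H.leadingCoeff = 1)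
    (hs : (H.map (algebraMap K L)).Splits)
    (hβ : ∀ β ∈ (H.map (algebraMap K L)).roots, ¬ P.valuation L (Φ β - β) < 1)
    (hinf : ¬ v.valuation K (cross ((rmap d f g)^[n] (1, 0)) γ) < 1) :
    ¬ ∃ m : ℕ, 0 < m ∧ v.valuation K (cross ((rmap d f g)^[m] γ) γ) < 1 := by
  rintro ⟨m, hm, h1⟩
  set u := v.valuation K with hu
  set y : K × K := (rmap d f g)^[m * n - n] γ with hy
  have hyp : Prim u y := h.prim_iter u hγp _
  have hmn : n ≤ m * n := Nat.le_mul_of_pos_left n hm
  have hfy : u (cross ((rmap d f g)^[n] y) γ) < 1 := by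
    rw [hy, ← Function.iterate_add_apply, Nat.add_sub_cancel' hmn]
    exact h.iter_mul u hcng hγp h1 n
  rcases lt_or_eq_of_le hyp.2.1 with h2 | h2
  · -- `y` is congruent to infinity
    apply hinf
    have hp1 : Prim u ((1, 0) : K × K) := ⟨by simp, by simp, Or.inl (by simp)⟩
    have e : u (cross ((1, 0) : K × K) y) < 1 := by
      have : cross ((1, 0) : K × K) y = y.2 := by unfold cross; ring
      rw [this]
      exact h2
    exact RG.trans u hcng (h.prim_iter u hp1 n) (h.prim_iter u hyp n) hγp (h.cong_iter u hcng hp1 hyp e n) hfy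
  · have hy0 : y.2 ≠ 0 := by
      intro h0
      rw [h0, map_zero] at h2
      exact zero_ne_one h2
    set x : K := y.1 / y.2 with hx
    have hx1 : u x ≤ 1 := by rw [hx, map_div₀, h2, div_one]; exact hyp.1
    have hp1 : Prim u ((x, 1) : K × K) := ⟨hx1, by simp, Or.inr (by simp)⟩
    have hfx : u (H.eval x) < 1 := by
      rw [hH]
      refine RG.trans u hcng (h.prim_iter u hp1 n) (h.prim_iter u hyp n) hγp (h.cong_iter u hcng hp1 hyp ?_ n) hfy
      have : cross ((x, 1) : K × K) y = 0 := by
        unfold cross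
        simp only
        rw [hx, div_mul_cancel₀ _ hy0]
        ring
      rw [this, map_zero]
      exact zero_lt_one
    set k : L[X] := H.map (algebraMap K L) with hk
    have hroot : ∃ β ∈ k.roots, P.valuation L (algebraMap K L x - β) < 1 := by
      by_contra hc
      push Not at hc
      have e1 : k.eval (algebraMap K L x) = k.leadingCoeff * (k.roots.map fun β => algebraMap K L x - β).prod := by
        conv_lhs => rw [hs.eq_prod_roots]
        rw [eval_mul, eval_C, eval_multiset_prod, Multiset.map_map]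
        congr 2
        apply Multiset.map_congr rfl
        intro β _
        simp
      have e2 : P.valuation L (k.eval (algebraMap K L x)) < 1 := by
        rw [hk, eval_map_algebraMap, aeval_algebraMap_apply]
        refine up_lt v P hP ?_
        rw [coe_aeval_eq_eval]
        exact hfx
      have e3 : P.valuation L k.leadingCoeff = 1 := by
        rw [hk, leadingCoeff_map]
        exact up_one v P hP hlc
      rw [e1, map_mul, e3, one_mul, map_multiset_prod, Multiset.map_map] at e2
      refine absurd e2 (not_lt.2 ?_)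
      refine Multiset.one_le_prod_of_one_le fun z hz => ?_
      rw [Multiset.mem_map] at hz
      obtain ⟨β, hβm, rfl⟩ := hz
      exact hc β hβm
    obtain ⟨β, hβm, hclose⟩ := hroot
    have hxL : P.valuation L (algebraMap K L x) ≤ 1 := up_le v P hP hx1
    have hβ1 : P.valuation L β ≤ 1 := by
      have e : β = algebraMap K L x - (algebraMap K L x - β) := by ring
      rw [e]
      exact ((P.valuation L).map_sub _ _).trans (max_le hxL hclose.le)
    have f1 := frob_ext P Φ _ hΦ hβ1
    have f2 := frob_ext P Φ _ hΦ hxL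
    rw [Φ.commutes] at f2
    have f3 := pow_sub_lt (P.valuation L) hβ1 hxL (by rwa [Valuation.map_sub_swap]) (Ideal.absNorm v.asIdeal)
    refine hβ β hβm ?_
    have e : Φ β - β = (Φ β - β ^ Ideal.absNorm v.asIdeal) + (β ^ Ideal.absNorm v.asIdeal -
      algebraMap K L x ^ Ideal.absNorm v.asIdeal) - (algebraMap K L x - algebraMap K L x ^ Ideal.absNorm v.asIdeal) +
        (algebraMap K L x - β) := by ring
    rw [e]
    exact (P.valuation L).map_add_lt ((P.valuation L).map_sub_lt ((P.valuation L).map_add_lt f1 f3) f2) hclose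

end fields

end Pool.Agent.P8H74.WP
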