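import Pool.Agent.P8H74.WP.RatMain
import Pool.Agent.P8H53.WP.Res
import Pool.Agent.P8H83.WP.Cng

/-!
# Rational maps: independence of the model, the equivalences
-/

set_option autoImplicit false

open NumberField IsDedekindDomain Polynomial

namespace Pool.Agent.P8H74.WP

open Pool.Agent.K3h30.RS (PosProportion Above)

variable {K : Type} [Field K] [NumberField K]

lemma hom_C_mul {L : Type} [CommRing L] (c : L) (d : ℕ) (f : L[X]) (x : L × L) :
    hom d (C c * f) x = c * hom d f x := by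
  unfold hom
  rw [Finset.mul_sum]
  refine Finset.sum_congr rfl fun i _ => ?_
  rw [coeff_C_mul, mul_assoc]

lemma iter_model {L : Type} [Field L] {c : L} (hc : c ≠ 0) (d : ℕ) (f g : L[X]) (x : L × L) (n : ℕ) :
    ∃ c' : L, c' ≠ 0 ∧ (rmap d (C c * f) (C c * g))^[n] x = sc c' ((rmap d f g)^[n] x) := by
  induction n with
  | zero => exact ⟨1, one_ne_zero, by simp [sc]⟩
  | succ n ih =>
      obtain ⟨c', hc', e⟩ := ih
      refine ⟨c * c' ^ d, mul_ne_zero hc (pow_ne_zero _ hc'), ?_⟩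
      rw [Function.iterate_succ_apply', Function.iterate_succ_apply', e]
      show (_, _) = (_, _)
      rw [hom_C_mul, hom_C_mul, hom_sc, hom_sc, ← mul_assoc, ← mul_assoc]
      rfl

lemma per_model (v : HeightOneSpectrum (𝓞 K)) (d : ℕ) (f g : K[X]) {c : K} (hc : c ≠ 0) (γ : K × K) :
    RPer v d (C c * f) (C c * g) γ ↔ RPer v d f g γ := by
  unfold RPer
  refine exists_congr fun m => and_congr_right fun _ => ?_
  obtain ⟨c', hc', e⟩ := iter_model hc d f g γ m
  have e1 : γ = sc 1 γ := by simp [sc]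
  rw [e]
  conv_lhs => rw [e1]
  rw [show (rmap d f g)^[m] (sc 1 γ) = (rmap d f g)^[m] γ by rw [← e1]]
  exact cong_sc v hc' one_ne_zero _ _

/-- good reduction of the map: of some multiple of the model -/
def GGood (v : HeightOneSpectrum (𝓞 K)) (d : ℕ) (f g : K[X]) : Prop :=
  ∃ c : K, c ≠ 0 ∧ RGood v d (C c * f) (C c * g)

/-- one prime decides -/
theorem gone_prime {d : ℕ} (hd : 1 ≤ d) (f g : K[X])
    (hf : f.natDegree ≤ d) (hg : g.natDegree ≤ d) {r : ℕ} (γ : Fin r → K × K) (hγ0 : ∀ i, γ i ≠ 0)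
    (h : ∃ v, GGood v d f g ∧ ∀ i, ¬ RPer v d f g (γ i)) (bad : Finset (HeightOneSpectrum (𝓞 K))) :
    PosProportion (fun v => v ∉ bad ∧ GGood v d f g ∧ ∀ i, ¬ RPer v d f g (γ i)) := by
  obtain ⟨v, ⟨c, hc, hgood⟩, hper⟩ := h
  have hf' : (C c * f).natDegree ≤ d := (natDegree_C_mul_le c f).trans hf
  have hg' : (C c * g).natDegree ≤ d := (natDegree_C_mul_le c g).trans hg
  refine pos_mono (rone_prime Pool.Agent.P8H53.WP.res Pool.Agent.P8H83.WP.pig Pool.Agent.P8H83.WP.cng hd (C c * f)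
    (C c * g) hf' hg' γ hγ0 ⟨v, hgood, fun i => ?_⟩ bad) ?_
  · rw [per_model v d f g hc]
    exact hper i
  · rintro w ⟨h1, h2, h3⟩
    refine ⟨h1, ⟨c, hc, h2⟩, fun i => ?_⟩
    rw [← per_model w d f g hc]
    exact h3 i

/-- the equivalences -/
theorem rtfae_main {d : ℕ} (hd : 1 ≤ d) (f g : K[X])
    (hf : f.natDegree ≤ d) (hg : g.natDegree ≤ d) {r : ℕ} (γ : Fin r → K × K) (hγ0 : ∀ i, γ i ≠ 0) :
    List.TFAE [∃ v, GGood v d f g ∧ ∀ i, ¬ RPer v d f g (γ i),
      {v | GGood v d f g ∧ ∀ i, ¬ RPer v d f g (γ i)}.Infinite,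
      PosProportion (fun v => GGood v d f g ∧ ∀ i, ¬ RPer v d f g (γ i))] := by
  classical
  tfae_have 1 → 3 := fun h => pos_mono (gone_prime hd f g hf hg γ hγ0 h ∅) fun v hv => hv.2
  tfae_have 3 → 1 := fun h => pos_nonempty h
  tfae_have 2 → 1 := fun h => h.nonempty
  tfae_have 1 → 2 := by
    intro h hfin
    obtain ⟨v, h1, h2⟩ := pos_nonempty (gone_prime hd f g hf hg γ hγ0 h hfin.toFinset)
    exact h1 ((Set.Finite.mem_toFinset _).2 h2)
  tfae_finish

end Pool.Agent.P8H74.WP
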