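import Pool.Agent.P8H74.WP.Rat
import Pool.Agent.P8H74.WP.Main

/-!
# Rational maps: one prime decides
-/

set_option autoImplicit false

open NumberField IsDedekindDomain Polynomial

namespace Pool.Agent.P8H74.WP

open Pool.Agent.K3h30.RS (PosProportion Above)

variable {K : Type} [Field K] [NumberField K]

/-- The model `(f, g)`, of degree `d`, of a rational map has good reduction at `v`. -/
def RGood (v : HeightOneSpectrum (𝓞 K)) (d : ℕ) (f g : K[X]) : Prop :=
  (∀ i, v.valuation K (f.coeff i) ≤ 1) ∧ (∀ i, v.valuation K (g.coeff i) ≤ 1) ∧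
    v.valuation K (resultant f g d d) = 1

/-- the points `x` and `y` of the projective line have the same reduction modulo `v` -/
def Cong (v : HeightOneSpectrum (𝓞 K)) (x y : K × K) : Prop :=
  v.valuation K (cross x y) < max (v.valuation K x.1) (v.valuation K x.2) * max (v.valuation K y.1) (v.valuation K y.2)

/-- `γ` is periodic modulo `v` -/
def RPer (v : HeightOneSpectrum (𝓞 K)) (d : ℕ) (f g : K[X]) (γ : K × K) : Prop :=
  ∃ m : ℕ, 0 < m ∧ Cong v ((rmap d f g)^[m] γ) γ

lemma rg (hres : S_RES) (v : HeightOneSpectrum (𝓞 K)) {d : ℕ} (hd : 1 ≤ d) {f g : K[X]} (hf : f.natDegree ≤ d)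
    (hg : g.natDegree ≤ d) (h : RGood v d f g) : RG (v.valuation K) d f g := by
  obtain ⟨h1, h2⟩ := hres K _ (v.valuation K) f g d hd hf hg h.1 h.2.1 h.2.2
  exact ⟨h.1, h.2.1, hf, hg, h1, h2⟩

lemma max_prim {v : HeightOneSpectrum (𝓞 K)} {x : K × K} (h : Prim (v.valuation K) x) :
    max (v.valuation K x.1) (v.valuation K x.2) = 1 := by
  apply le_antisymm (max_le h.1 h.2.1)
  rcases h.2.2 with h1 | h1
  · rw [h1]
    exact le_max_left _ _
  · rw [h1]
    exact le_max_right _ _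

lemma cong_prim {v : HeightOneSpectrum (𝓞 K)} {x y : K × K} (hx : Prim (v.valuation K) x)
    (hy : Prim (v.valuation K) y) : Cong v x y ↔ v.valuation K (cross x y) < 1 := by
  unfold Cong
  rw [max_prim hx, max_prim hy, one_mul]

lemma per_prim {v : HeightOneSpectrum (𝓞 K)} {d : ℕ} {f g : K[X]} (h : RG (v.valuation K) d f g) {γ : K × K}
    (hγ : Prim (v.valuation K) γ) :
    RPer v d f g γ ↔ ∃ m : ℕ, 0 < m ∧ v.valuation K (cross ((rmap d f g)^[m] γ) γ) < 1 := by
  unfold RPer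
  constructor
  · rintro ⟨m, hm, h1⟩
    exact ⟨m, hm, (cong_prim (h.prim_iter _ hγ m) hγ).1 h1⟩
  · rintro ⟨m, hm, h1⟩
    exact ⟨m, hm, (cong_prim (h.prim_iter _ hγ m) hγ).2 h1⟩

/-! ### scaling -/

/-- multiplication of a vector with a scalar -/
def sc {L : Type} [CommRing L] (c : L) (x : L × L) : L × L := (c * x.1, c * x.2)

lemma hom_sc {L : Type} [CommRing L] (c : L) (d : ℕ) (f : L[X]) (x : L × L) : hom d f (sc c x) = c ^ d * hom d f x := by
  unfold hom sc
  rw [Finset.mul_sum]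
  refine Finset.sum_congr rfl fun i hi => ?_
  have hid : i ≤ d := Nat.lt_succ_iff.1 (Finset.mem_range.1 hi)
  have e : c ^ d = c ^ i * c ^ (d - i) := by rw [← pow_add, Nat.add_sub_cancel' hid]
  simp only
  rw [e, mul_pow, mul_pow]
  ring

lemma iter_sc {L : Type} [Field L] {c : L} (hc : c ≠ 0) (d : ℕ) (f g : L[X]) (x : L × L) (n : ℕ) :
    ∃ c' : L, c' ≠ 0 ∧ (rmap d f g)^[n] (sc c x) = sc c' ((rmap d f g)^[n] x) := by
  induction n with
  | zero => exact ⟨c, hc, rfl⟩
  | succ n ih =>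
      obtain ⟨c', hc', e⟩ := ih
      refine ⟨c' ^ d, pow_ne_zero _ hc', ?_⟩
      rw [Function.iterate_succ_apply', Function.iterate_succ_apply', e]
      show (_, _) = (_, _)
      rw [hom_sc, hom_sc]
      rfl

lemma cross_sc {L : Type} [CommRing L] (a b : L) (x y : L × L) : cross (sc a x) (sc b y) = a * b * cross x y := by
  unfold cross sc
  ring

lemma cong_sc (v : HeightOneSpectrum (𝓞 K)) {a b : K} (ha : a ≠ 0) (hb : b ≠ 0) (x y : K × K) :
    Cong v (sc a x) (sc b y) ↔ Cong v x y := by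
  have ha' : 0 < v.valuation K a := pos_iff_ne_zero.2 ((_root_.map_ne_zero _).2 ha)
  have hb' : 0 < v.valuation K b := pos_iff_ne_zero.2 ((_root_.map_ne_zero _).2 hb)
  unfold Cong
  rw [cross_sc, map_mul, map_mul]
  have e1 : max (v.valuation K (sc a x).1) (v.valuation K (sc a x).2) =
      v.valuation K a * max (v.valuation K x.1) (v.valuation K x.2) := by
    unfold sc
    rw [map_mul, map_mul, mul_max]
  have e2 : max (v.valuation K (sc b y).1) (v.valuation K (sc b y).2) =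
      v.valuation K b * max (v.valuation K y.1) (v.valuation K y.2) := by
    unfold sc
    rw [map_mul, map_mul, mul_max]
  rw [e1, e2, mul_mul_mul_comm]
  exact mul_lt_mul_iff_right₀ (mul_pos ha' hb')

lemma per_sc (v : HeightOneSpectrum (𝓞 K)) (d : ℕ) (f g : K[X]) {c : K} (hc : c ≠ 0) (γ : K × K) :
    RPer v d f g (sc c γ) ↔ RPer v d f g γ := by
  unfold RPer
  refine exists_congr fun m => and_congr_right fun _ => ?_
  obtain ⟨c', hc', e⟩ := iter_sc hc d f g γ m
  rw [e, cong_sc v hc' hc]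

lemma exists_prim {L Γ₀ : Type} [Field L] [LinearOrderedCommGroupWithZero Γ₀] (w : Valuation L Γ₀) {x : L × L}
    (hx : x ≠ 0) : ∃ c : L, c ≠ 0 ∧ Prim w (sc c x) ∧ (c = x.1⁻¹ ∨ c = x.2⁻¹) := by
  rcases le_total (w x.1) (w x.2) with h | h
  · have h2 : x.2 ≠ 0 := by
      intro h0
      apply hx
      rw [h0, map_zero, nonpos_iff_eq_zero, map_eq_zero] at h
      exact Prod.ext h h0
    have h3 : w x.2 ≠ 0 := (_root_.map_ne_zero _).2 h2
    refine ⟨x.2⁻¹, inv_ne_zero h2, ⟨?_, ?_, Or.inr ?_⟩, Or.inr rfl⟩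
    · show w (x.2⁻¹ * x.1) ≤ 1
      rw [map_mul, map_inv₀]
      exact (inv_mul_le_one₀ (pos_iff_ne_zero.2 h3)).2 h
    · show w (x.2⁻¹ * x.2) ≤ 1
      rw [inv_mul_cancel₀ h2, map_one]
    · show w (x.2⁻¹ * x.2) = 1
      rw [inv_mul_cancel₀ h2, map_one]
  · have h2 : x.1 ≠ 0 := by
      intro h0
      apply hx
      rw [h0, map_zero, nonpos_iff_eq_zero, map_eq_zero] at h
      exact Prod.ext h0 h
    have h3 : w x.1 ≠ 0 := (_root_.map_ne_zero _).2 h2
    refine ⟨x.1⁻¹, inv_ne_zero h2, ⟨?_, ?_, Or.inl ?_⟩, Or.inl rfl⟩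
    · show w (x.1⁻¹ * x.1) ≤ 1
      rw [inv_mul_cancel₀ h2, map_one]
    · show w (x.1⁻¹ * x.2) ≤ 1
      rw [map_mul, map_inv₀]
      exact (inv_mul_le_one₀ (pos_iff_ne_zero.2 h3)).2 h
    · show w (x.1⁻¹ * x.1) = 1
      rw [inv_mul_cancel₀ h2, map_one]

/-! ### finitely many bad primes -/

lemma fin_gt (x : K) : {v : HeightOneSpectrum (𝓞 K) | 1 < v.valuation K x}.Finite :=
  HeightOneSpectrum.Support.finite (𝓞 K) x

lemma fin_lt {x : K} (hx : x ≠ 0) : {v : HeightOneSpectrum (𝓞 K) | v.valuation K x < 1}.Finite := by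
  refine (fin_gt x⁻¹).subset fun v hv => ?_
  show 1 < v.valuation K x⁻¹
  rw [map_inv₀]
  exact (one_lt_inv₀ (pos_iff_ne_zero.2 ((_root_.map_ne_zero _).2 hx))).2 hv

lemma fin_ne {x : K} (hx : x ≠ 0) : {v : HeightOneSpectrum (𝓞 K) | v.valuation K x ≠ 1}.Finite := by
  refine ((fin_gt x).union (fin_lt hx)).subset fun v hv => ?_
  rcases lt_or_gt_of_ne hv with h | h
  · exact Or.inr h
  · exact Or.inl h

lemma fin_coeff (f : K[X]) : {v : HeightOneSpectrum (𝓞 K) | ¬ ∀ i, v.valuation K (f.coeff i) ≤ 1}.Finite := by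
  have h1 : (⋃ i ∈ f.support, {v : HeightOneSpectrum (𝓞 K) | 1 < v.valuation K (f.coeff i)}).Finite :=
    Set.Finite.biUnion (Finset.finite_toSet _) fun i _ => fin_gt _
  refine h1.subset fun v hv => ?_
  have hv' : ¬ ∀ i, v.valuation K (f.coeff i) ≤ 1 := hv
  push Not at hv'
  obtain ⟨i, hi⟩ := hv'
  rw [Set.mem_iUnion₂]
  refine ⟨i, ?_, hi⟩
  rw [mem_support_iff]
  intro h0
  rw [h0, map_zero] at hi
  exact absurd hi (not_lt.2 zero_le_one)

lemma fin_good {d : ℕ} {f g : K[X]} (hr : resultant f g d d ≠ 0) :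
    {v : HeightOneSpectrum (𝓞 K) | ¬ RGood v d f g}.Finite := by
  refine (((fin_coeff f).union (fin_coeff g)).union (fin_ne hr)).subset fun v hv => ?_
  by_contra hc
  rw [Set.mem_union, Set.mem_union, not_or, not_or] at hc
  apply hv
  refine ⟨?_, ?_, ?_⟩
  · by_contra h
    exact hc.1.1 h
  · by_contra h
    exact hc.1.2 h
  · by_contra h
    exact hc.2 h

lemma fin_prim {x : K × K} (hx : x ≠ 0) : {v : HeightOneSpectrum (𝓞 K) | ¬ Prim (v.valuation K) x}.Finite := by
  have h0 : x.1 ≠ 0 ∨ x.2 ≠ 0 := by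
    by_contra hc
    rw [not_or, not_not, not_not] at hc
    exact hx (Prod.ext hc.1 hc.2)
  rcases h0 with h0 | h0
  · refine (((fin_gt x.1).union (fin_gt x.2)).union (fin_ne h0)).subset fun v hv => ?_
    by_contra hc
    rw [Set.mem_union, Set.mem_union, not_or, not_or] at hc
    apply hv
    refine ⟨not_lt.1 hc.1.1, not_lt.1 hc.1.2, Or.inl ?_⟩
    by_contra h
    exact hc.2 h
  · refine (((fin_gt x.1).union (fin_gt x.2)).union (fin_ne h0)).subset fun v hv => ?_
    by_contra hc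
    rw [Set.mem_union, Set.mem_union, not_or, not_or] at hc
    apply hv
    refine ⟨not_lt.1 hc.1.1, not_lt.1 hc.1.2, Or.inr ?_⟩
    by_contra h
    exact hc.2 h

/-- the polynomials `(f_n, g_n)` with `φ^n(x, 1) = (f_n(x), g_n(x))` -/
noncomputable def itp (d : ℕ) (f g : K[X]) (n : ℕ) : K[X] × K[X] := (rmap d (f.map C) (g.map C))^[n] (X, 1)

lemma itp_eval (d : ℕ) (f g : K[X]) (n : ℕ) (x : K) :
    ((itp d f g n).1.eval x, (itp d f g n).2.eval x) = (rmap d f g)^[n] (x, 1) := by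
  have h1 := iter_mp (evalRingHom x) d (f.map C) (g.map C) (X, 1) n
  have e1 : (f.map C).map (evalRingHom x) = f := by
    rw [Polynomial.map_map]
    have : (evalRingHom x).comp C = RingHom.id K := by ext y; simp
    rw [this, Polynomial.map_id]
  have e2 : (g.map C).map (evalRingHom x) = g := by
    rw [Polynomial.map_map]
    have : (evalRingHom x).comp C = RingHom.id K := by ext y; simp
    rw [this, Polynomial.map_id]
  have e3 : mp (evalRingHom x) ((X, 1) : K[X] × K[X]) = (x, 1) := by unfold mp; simp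
  rw [e1, e2, e3] at h1
  rw [h1]
  rfl

theorem rone_prime (hres : S_RES) (hpig : S_PIG) (hcng : S_CNG) {d : ℕ} (hd : 1 ≤ d) (f g : K[X])
    (hf : f.natDegree ≤ d) (hg : g.natDegree ≤ d) {r : ℕ} (γ : Fin r → K × K) (hγ0 : ∀ i, γ i ≠ 0)
    (h : ∃ v, RGood v d f g ∧ ∀ i, ¬ RPer v d f g (γ i)) (bad : Finset (HeightOneSpectrum (𝓞 K))) :
    PosProportion (fun v => v ∉ bad ∧ RGood v d f g ∧ ∀ i, ¬ RPer v d f g (γ i)) := by
  classical
  obtain ⟨v₀, hgood, hper⟩ := h
  have hr : resultant f g d d ≠ 0 := by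
    intro h0
    have h1 := hgood.2.2
    rw [h0, map_zero] at h1
    exact zero_ne_one h1
  have hG := rg hres v₀ hd hf hg hgood
  -- primitive representatives at `v₀`
  have hpr : ∀ i, ∃ c : K, c ≠ 0 ∧ Prim (v₀.valuation K) (sc c (γ i)) := fun i => by
    obtain ⟨c, h1, h2, _⟩ := exists_prim (v₀.valuation K) (hγ0 i)
    exact ⟨c, h1, h2⟩
  choose c hc0 hcp using hpr
  have hper' : ∀ i, ¬ ∃ m : ℕ, 0 < m ∧ v₀.valuation K (cross ((rmap d f g)^[m] (sc (c i) (γ i))) (sc (c i) (γ i))) < 1 := by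
    intro i h1
    rw [← per_prim hG (hcp i), per_sc v₀ d f g (hc0 i)] at h1
    exact hper i h1
  set q : ℕ := Ideal.absNorm v₀.asIdeal with hqdef
  have hq : 1 < q := by
    have h1 : Ideal.absNorm v₀.asIdeal ≠ 1 := fun h => v₀.isPrime.ne_top (Ideal.absNorm_eq_one_iff.1 h)
    have h2 : Ideal.absNorm v₀.asIdeal ≠ 0 := fun h => v₀.ne_bot (Ideal.absNorm_eq_zero_iff.1 h)
    omega
  set n : ℕ := q + 1 with hn
  -- the polynomials whose roots are the solutions
  set H : Fin r → K[X] := fun i => (itp d f g n).1 * C (sc (c i) (γ i)).2 - (itp d f g n).2 * C (sc (c i) (γ i)).1 with hHdef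
  have hHev : ∀ i (x : K), (H i).eval x = cross ((rmap d f g)^[n] (x, 1)) (sc (c i) (γ i)) := by
    intro i x
    rw [← itp_eval]
    simp only [hHdef, eval_sub, eval_mul, eval_C, cross]
  have key : ∀ (L : Type) [Field L] [NumberField L] [Algebra K L] (P : HeightOneSpectrum (𝓞 L)) (Φ : L ≃ₐ[K] L),
      P.asIdeal.comap (algebraMap (𝓞 K) (𝓞 L)) = v₀.asIdeal →
      (∀ x : 𝓞 L, P.valuation L (Φ (x : L) - (x : L) ^ q) < 1) → ∀ i (β : L × L), β ≠ 0 → Φ β.1 = β.1 → Φ β.2 = β.2 →
      cross ((rmap d (f.map (algebraMap K L)) (g.map (algebraMap K L)))^[n] β)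
        (mp (algebraMap K L) (sc (c i) (γ i))) ≠ 0 := by
    intro L _ _ _ P Φ hP hΦ i β hβ0 h1 h2 h3
    obtain ⟨a, ha0, hap, ha⟩ := exists_prim (P.valuation L) hβ0
    have hΦa : Φ a = a := by
      rcases ha with h | h <;> rw [h, map_inv₀]
      · rw [h1]
      · rw [h2]
    obtain ⟨a', ha', e⟩ := iter_sc ha0 d (f.map (algebraMap K L)) (g.map (algebraMap K L)) β n
    refine rno_fixed v₀ P hP hpig hcng hG (hcp i) (hper' i) Φ hq hΦ (n := n) le_rfl hap ?_ ?_ ?_
    · rw [e]
      have e2 : mp (algebraMap K L) (sc (c i) (γ i)) = sc 1 (mp (algebraMap K L) (sc (c i) (γ i))) := by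
        unfold sc
        simp
      rw [e2, cross_sc, h3, mul_zero]
    · show Φ (a * β.1) = a * β.1
      rw [map_mul, hΦa, h1]
    · show Φ (a * β.2) = a * β.2
      rw [map_mul, hΦa, h2]
  -- the splitting field
  have hH0 : ∀ i, H i ≠ 0 := by
    intro i h0
    obtain ⟨P, hP⟩ := exists_above K K v₀
    obtain ⟨Φ, hΦ⟩ := exists_frob K K v₀ P hP
    have h1 := key K P Φ hP hΦ i (0, 1) (by simp) (by simp) (by simp)
    apply h1
    have h2 := hHev i 0
    rw [h0, eval_zero] at h2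
    have e : algebraMap K K = RingHom.id K := rfl
    rw [e, Polynomial.map_id, Polynomial.map_id]
    exact h2.symm
  set h : K[X] := ∏ i, H i with hh
  have hh0 : h ≠ 0 := Finset.prod_ne_zero_iff.2 fun i _ => hH0 i
  let L := h.SplittingField
  have hchar : CharZero L := charZero_of_injective_algebraMap (algebraMap K L).injective
  have hNF : NumberField L := NumberField.of_module_finite K L
  have hnorm : Normal K L := Normal.of_isSplittingField h
  have hgal : IsGalois K L := { }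
  have hsplit : ∀ i, ((H i).map (algebraMap K L)).Splits := by
    intro i
    have h1 : (h.map (algebraMap K L)).Splits := SplittingField.splits h
    refine h1.of_dvd ?_ ?_
    · exact (Polynomial.map_ne_zero_iff (algebraMap K L).injective).2 hh0
    · exact Polynomial.map_dvd _ (Finset.dvd_prod_of_mem _ (Finset.mem_univ i))
  obtain ⟨P₀, hP₀⟩ := exists_above K L v₀
  obtain ⟨Φ, hΦ⟩ := exists_frob K L v₀ P₀ hP₀
  have hmove : ∀ i, ∀ β ∈ ((H i).map (algebraMap K L)).roots, Φ β ≠ β := by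
    intro i β hβ hfix
    refine key L P₀ Φ hP₀ hΦ i (β, 1) (by simp) hfix (by simp) ?_
    have h1 : ((H i).map (algebraMap K L)).eval β = 0 := by
      rw [mem_roots', IsRoot.def] at hβ
      exact hβ.2
    have h2 : (rmap d (f.map (algebraMap K L)) (g.map (algebraMap K L)))^[n] (β, 1) =
        (((itp d f g n).1.map (algebraMap K L)).eval β, ((itp d f g n).2.map (algebraMap K L)).eval β) := by
      have h3 := iter_mp (((evalRingHom β).comp (mapRingHom (algebraMap K L))) : K[X] →+* L) d (f.map C) (g.map C) (X, 1) n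
      have e1 : (f.map C).map ((evalRingHom β).comp (mapRingHom (algebraMap K L))) = f.map (algebraMap K L) := by
        rw [Polynomial.map_map]
        congr 1
        ext y
        simp
      have e2 : (g.map C).map ((evalRingHom β).comp (mapRingHom (algebraMap K L))) = g.map (algebraMap K L) := by
        rw [Polynomial.map_map]
        congr 1
        ext y
        simp
      have e3 : mp ((evalRingHom β).comp (mapRingHom (algebraMap K L))) ((X, 1) : K[X] × K[X]) = (β, 1) := by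
        unfold mp
        simp
      rw [e1, e2, e3] at h3
      rw [h3]
      rfl
    rw [h2]
    have e4 : (H i).map (algebraMap K L) = (itp d f g n).1.map (algebraMap K L) * C (algebraMap K L (sc (c i) (γ i)).2) -
        (itp d f g n).2.map (algebraMap K L) * C (algebraMap K L (sc (c i) (γ i)).1) := by
      simp only [hHdef, Polynomial.map_sub, Polynomial.map_mul, map_C]
    rw [e4, eval_sub, eval_mul, eval_mul, eval_C, eval_C] at h1
    exact h1
  have hinf : ∀ i, cross ((rmap d f g)^[n] (1, 0)) (sc (c i) (γ i)) ≠ 0 := by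
    intro i h0
    obtain ⟨P, hP⟩ := exists_above K K v₀
    obtain ⟨Ψ, hΨ⟩ := exists_frob K K v₀ P hP
    apply key K P Ψ hP hΨ i (1, 0) (by simp) (by simp) (by simp)
    have e : algebraMap K K = RingHom.id K := rfl
    rw [e, Polynomial.map_id, Polynomial.map_id]
    exact h0
  -- the bad primes
  have hB1 := fin_good (K := K) hr
  have hB2 : (⋃ i, {v : HeightOneSpectrum (𝓞 K) | ¬ Prim (v.valuation K) (sc (c i) (γ i))}).Finite :=
    Set.finite_iUnion fun i => fin_prim (by
      intro h0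
      have h1 := hcp i
      rw [h0] at h1
      rcases h1.2.2 with h2 | h2
      · simp at h2
      · simp at h2)
  have hB4 : (⋃ i, {v : HeightOneSpectrum (𝓞 K) | v.valuation K (H i).leadingCoeff ≠ 1}).Finite :=
    Set.finite_iUnion fun i => fin_ne (leadingCoeff_ne_zero.2 (hH0 i))
  have hB5 : (⋃ i, {v : HeightOneSpectrum (𝓞 K) |
      v.valuation K (cross ((rmap d f g)^[n] (1, 0)) (sc (c i) (γ i))) < 1}).Finite :=
    Set.finite_iUnion fun i => fin_lt (hinf i)
  set BL : Set (HeightOneSpectrum (𝓞 L)) := ⋃ i, ⋃ β ∈ ((H i).map (algebraMap K L)).roots.toFinset,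
    {P | P.valuation L (Φ β - β) < 1} with hBL
  have hBLf : BL.Finite := Set.finite_iUnion fun i => Set.Finite.biUnion (Finset.finite_toSet _)
    fun β hβ => fin_lt (sub_ne_zero.2 (hmove i β (Multiset.mem_toFinset.1 hβ)))
  have hB3 := finite_below K L BL hBLf
  have hcheb := Pool.Agent.K3h73.RS.t_CHEB K L Φ
    (bad ∪ hB1.toFinset ∪ hB2.toFinset ∪ hB3.toFinset ∪ hB4.toFinset ∪ hB5.toFinset)
  refine pos_mono hcheb ?_
  rintro v ⟨hv, P, ⟨v', hv', hPv⟩, hfrob⟩
  rw [Set.mem_singleton_iff] at hv'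
  rw [hv'] at hPv
  simp only [Finset.mem_union, Set.Finite.mem_toFinset, not_or] at hv
  obtain ⟨⟨⟨⟨⟨g1, g2⟩, g3⟩, g4⟩, g5⟩, g6⟩ := hv
  have hgv : RGood v d f g := by
    by_contra hc
    exact g2 hc
  have hGv := rg hres v hd hf hg hgv
  refine ⟨g1, hgv, fun i => ?_⟩
  have hp : Prim (v.valuation K) (sc (c i) (γ i)) := by
    by_contra hc
    exact g3 (Set.mem_iUnion.2 ⟨i, hc⟩)
  rw [← per_sc v d f g (hc0 i), per_prim hGv hp]
  refine rspread v P hPv hcng hGv hp Φ hfrob (n := n) (H := H i) (hHev i) ?_ (hsplit i) ?_ ?_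
  · by_contra hc
    exact g5 (Set.mem_iUnion.2 ⟨i, hc⟩)
  · intro β hβ hlt
    apply g4
    refine ⟨P, ?_, hPv⟩
    rw [hBL, Set.mem_iUnion]
    refine ⟨i, ?_⟩
    rw [Set.mem_iUnion₂]
    exact ⟨β, Multiset.mem_toFinset.2 hβ, hlt⟩
  · intro hc
    exact g6 (Set.mem_iUnion.2 ⟨i, hc⟩)

end Pool.Agent.P8H74.WP
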