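import Mathlib

/-!
# Project WP, second part: rational maps; statements of the packages
-/

set_option autoImplicit false

open NumberField IsDedekindDomain Polynomial

namespace Pool.Agent.P8H74.WP

/-- The value of the homogenization of degree `d` of the polynomial `f` at `(x, y)`. -/
noncomputable def hom {L : Type} [CommSemiring L] (d : ℕ) (f : L[X]) (x : L × L) : L :=
  ∑ i ∈ Finset.range (d + 1), f.coeff i * (x.1 ^ i * x.2 ^ (d - i))

/-- The rational map `f / g` of degree `d` in homogeneous coordinates. -/
noncomputable def rmap {L : Type} [CommSemiring L] (d : ℕ) (f g : L[X]) (x : L × L) : L × L := (hom d f x, hom d g x)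

/-- `x 0 y 1 - x 1 y 0`: zero iff the points `x`, `y` of the projective line are equal -/
def cross {L : Type} [CommRing L] (x y : L × L) : L := x.1 * y.2 - x.2 * y.1

/-- `x` is primitive: its components are integral and one of them is a unit -/
def Prim {L Γ₀ : Type} [Field L] [LinearOrderedCommGroupWithZero Γ₀] (w : Valuation L Γ₀) (x : L × L) : Prop :=
  w x.1 ≤ 1 ∧ w x.2 ≤ 1 ∧ (w x.1 = 1 ∨ w x.2 = 1)

/-- **RES** (60-80 lines, Mathlib only). Let `f`, `g` be polynomials with integral coefficients (with respect to the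
valuation `w`) of degree at most `d`, such that the resultant of degrees `d`, `d` is a unit. Then `1 = f p + g q` with
integral `p`, `q`, and one of the coefficients of degree `d` is a unit.

Proof. Let `R` be the ring `w.integer` (or `w.valuationSubring`) and write `f = f'.map R.subtype`, `g = g'.map R.subtype` with
`f', g' : R[X]` (`Polynomial.toSubring`, or `Polynomial.lifts`), `resultant_map_map`. The first claim is
`Polynomial.exists_mul_add_mul_eq_C_resultant` for `f'`, `g'`, divided by the resultant. The second: if both coefficients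
were in the maximal ideal then over the residue field the degrees are `< d`, so
`Polynomial.resultant_eq_zero_of_lt_lt` shows that the reduction of the resultant is zero. -/
def S_RES : Prop :=
  ∀ (K Γ₀ : Type) [Field K] [LinearOrderedCommGroupWithZero Γ₀] (w : Valuation K Γ₀) (f g : K[X]) (d : ℕ), 1 ≤ d →
    f.natDegree ≤ d → g.natDegree ≤ d → (∀ i, w (f.coeff i) ≤ 1) → (∀ i, w (g.coeff i) ≤ 1) →
    w (resultant f g d d) = 1 →
    (∃ p q : K[X], (∀ i, w (p.coeff i) ≤ 1) ∧ (∀ i, w (q.coeff i) ≤ 1) ∧ f * p + g * q = 1) ∧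
      (w (f.coeff d) = 1 ∨ w (g.coeff d) = 1)

/-- **PIG** (80 lines; adapt `Pool.Agent.P8H74.WP.pigeon` in `Pool/Agent/P8H74/WP/Loc.lean`). The projective line over a field
with `q` elements has `q + 1` points. Proof: choose approximations `a j, b j ∈ 𝓞 L` of the components; map `j` to `none` if
`b j ∈ P` and to `some (a j / b j)` (in the field `𝓞 L ⧸ P`) otherwise; the images are in
`insertNone (X ^ q - X).roots.toFinset`, which has at most `q + 1` elements; `q + 2` indices. -/
def S_PIG : Prop :=
  ∀ (L : Type) [Field L] [NumberField L] (P : HeightOneSpectrum (𝓞 L)) (q : ℕ), 1 < q → ∀ x : ℕ → L × L,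
    (∀ j, Prim (P.valuation L) (x j)) → (∀ j, P.valuation L ((x j).1 ^ q - (x j).1) < 1) →
    (∀ j, P.valuation L ((x j).2 ^ q - (x j).2) < 1) →
    ∃ i j, i < j ∧ j ≤ q + 1 ∧ P.valuation L (cross (x i) (x j)) < 1

/-- **CNG** (100 lines, Mathlib only). Congruences of primitive vectors:
(a) transitivity: from `y.1 cross(x, z) = x.1 cross(y, z) + z.1 cross(x, y)` and the same with `y.2`;
(b) the map `rmap d f g` (`f`, `g` with integral coefficients) respects congruence: if `x`, `y` are primitive and
`w (cross x y) < 1` then for `λ = x.1 / y.1` or `x.2 / y.2` (a unit) `x ≡ λ y`, so `rmap x ≡ λ ^ d rmap y` componentwise and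
`w (cross (rmap x) (rmap y)) < 1`. -/
def S_CNG : Prop :=
  ∀ (L Γ₀ : Type) [Field L] [LinearOrderedCommGroupWithZero Γ₀] (w : Valuation L Γ₀),
    (∀ x y z : L × L, Prim w x → Prim w y → Prim w z → w (cross x y) < 1 → w (cross y z) < 1 → w (cross x z) < 1) ∧
    ∀ (d : ℕ) (f g : L[X]), (∀ i, w (f.coeff i) ≤ 1) → (∀ i, w (g.coeff i) ≤ 1) → ∀ x y : L × L, Prim w x → Prim w y →
      w (cross x y) < 1 → w (cross (rmap d f g x) (rmap d f g y)) < 1

end Pool.Agent.P8H74.WP
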