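import Pool.Agent.P8H74.WP.Fin
import Pool.Agent.P8H74.WP.Stm4

/-!
# Every pair of points, almost all maps x^d + c
-/

set_option autoImplicit false

open NumberField IsDedekindDomain Polynomial

namespace Pool.Agent.P8H74.WP

open Pool.Agent.K3h30.RS (PosProportion)

variable {K : Type} [Field K] [NumberField K]

lemma uni_good (v : HeightOneSpectrum (𝓞 K)) {d : ℕ} (hd : 2 ≤ d) (c : 𝓞 K) :
    Good v (X ^ d + C (c : K) : K[X]) := by
  have hc : v.valuation K (c : K) ≤ 1 := v.valuation_le_one c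
  refine ⟨fun i => ?_, ?_⟩
  · rw [coeff_add, coeff_X_pow, coeff_C]
    refine ((v.valuation K).map_add _ _).trans (max_le ?_ ?_)
    · split_ifs <;> simp
    · split_ifs
      · exact hc
      · simp
  · rw [leadingCoeff_X_pow_add_C (by omega), map_one]

lemma uni_nonper (v : HeightOneSpectrum (𝓞 K)) {d : ℕ} (hd : 2 ≤ d) (c a : 𝓞 K) {γ : K} (hγ : v.valuation K γ ≤ 1)
    (ha : v.valuation K ((a : K) - γ) < 1)
    (h : ∀ y : 𝓞 K ⧸ v.asIdeal, y ^ d ≠ Ideal.Quotient.mk v.asIdeal a - Ideal.Quotient.mk v.asIdeal c) :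
    ¬ PeriodicMod v (X ^ d + C (c : K) : K[X]) γ := by
  have hgood := uni_good v hd c
  rintro (h1 | ⟨m, hm, h1⟩)
  · exact absurd hγ (not_le.2 h1)
  · obtain ⟨n, rfl⟩ : ∃ n, m = n + 1 := ⟨m - 1, by omega⟩
    rw [Function.iterate_succ_apply'] at h1
    have hy := iter_le _ hgood.1 hγ n
    obtain ⟨y, hyd⟩ : ∃ y : K, y = (fun x => (X ^ d + C (c : K) : K[X]).eval x)^[n] γ := ⟨_, rfl⟩
    rw [← hyd] at h1 hy
    obtain ⟨b, hb⟩ := v.exists_valuation_sub_lt_of_integer hy (γ := 1)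
    have hb' : v.valuation K (y - (b : K)) < 1 := by
      rw [Valuation.map_sub_swap]
      exact hb
    have hb1 : v.valuation K (b : K) ≤ 1 := v.valuation_le_one b
    have h2 := eval_sub_lt _ hgood.1 hy hb1 hb'
    have h3 : v.valuation K (algebraMap (𝓞 K) K (b ^ d + c - a)) < 1 := by
      have e : algebraMap (𝓞 K) K (b ^ d + c - a) =
          ((X ^ d + C (c : K) : K[X]).eval y - γ) - ((X ^ d + C (c : K) : K[X]).eval y -
            (X ^ d + C (c : K) : K[X]).eval (b : K)) - ((a : K) - γ) := by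
        simp only [eval_add, eval_pow, eval_X, eval_C, map_sub, map_add, map_pow]
        ring
      rw [e]
      exact (v.valuation K).map_sub_lt ((v.valuation K).map_sub_lt h1 h2) ha
    have h4 : b ^ d + c - a ∈ v.asIdeal := (v.valuation_lt_one_iff_mem _).1 h3
    apply h (Ideal.Quotient.mk v.asIdeal b)
    rw [← map_pow, ← map_sub, Ideal.Quotient.eq]
    have e : b ^ d - (a - c) = b ^ d + c - a := by ring
    rw [e]
    exact h4

lemma fin_norm (n : ℕ) : {v : HeightOneSpectrum (𝓞 K) | Ideal.absNorm v.asIdeal ≤ n}.Finite := by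
  have h2 : {I : Ideal (𝓞 K) | Ideal.absNorm I ≤ n}.Finite := Ideal.finite_setOfPred_absNorm_le n
  exact Set.Finite.preimage (fun a _ b _ hab => HeightOneSpectrum.ext hab) h2

/-- the package PW -/
def S_PW : Prop :=
  ∀ (k : Type) [Field k] [Finite k] (d : ℕ), 2 ≤ d → d ∣ Nat.card k - 1 → ∀ a b : k,
    Nat.card k ≤ 4 * {c : k | (∀ y, y ^ d ≠ a - c) ∧ ∀ y, y ^ d ≠ b - c}.ncard + 5

lemma pw_of (h3 : S_PW3) (h2 : S_PW2) : S_PW := by
  intro k _ _ d hd hdq a b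
  rcases hd.eq_or_lt with rfl | hd'
  · exact h2 k hdq a b
  · exact h3 k d hd' hdq a b

theorem uni (hpw : S_PW) {d : ℕ} (hd : 2 ≤ d) (α β : K) (ε : ℝ) (hε : 0 < ε) : ∃ I : Ideal (𝓞 K), I ≠ ⊥ ∧
    ((Ideal.Quotient.mk I '' {c : 𝓞 K | ¬ PosProportion (fun v => Good v (X ^ d + C (c : K) : K[X]) ∧
      ∀ i, ¬ PeriodicMod v (X ^ d + C (c : K) : K[X]) ((![α, β] : Fin 2 → K) i))}).ncard : ℝ) ≤
        ε * (Nat.card (𝓞 K ⧸ I) : ℝ) := by
  obtain ⟨I, hI, hI2⟩ := Pool.Agent.P8H96.WP.crt K 1 (1 / 9) (by norm_num) (by norm_num)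
    {c : Fin 1 → 𝓞 K | ¬ PosProportion (fun v => Good v (X ^ d + C (c 0 : K) : K[X]) ∧
      ∀ i, ¬ PeriodicMod v (X ^ d + C (c 0 : K) : K[X]) ((![α, β] : Fin 2 → K) i))}
    ((({v : HeightOneSpectrum (𝓞 K) | d ∣ Ideal.absNorm v.asIdeal - 1} \ {v | Ideal.absNorm v.asIdeal ≤ 5}) \
      {v | 1 < v.valuation K α}) \ {v | 1 < v.valuation K β})
    ((((Pool.Agent.P8H78.WP.prm K d (by omega)).sdiff (fin_norm 5)).sdiff
      (HeightOneSpectrum.Support.finite (𝓞 K) α)).sdiff (HeightOneSpectrum.Support.finite (𝓞 K) β)) (by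
    rintro v ⟨⟨⟨hv1, hv2⟩, hv3⟩, hv4⟩
    have h3 : v.valuation K α ≤ 1 := not_lt.1 hv3
    have h4 : v.valuation K β ≤ 1 := not_lt.1 hv4
    have h5 : 5 < Ideal.absNorm v.asIdeal := not_le.1 hv2
    obtain ⟨a, ha⟩ := v.exists_valuation_sub_lt_of_integer h3 (γ := 1)
    obtain ⟨b, hb⟩ := v.exists_valuation_sub_lt_of_integer h4 (γ := 1)
    have hfin : Finite (𝓞 K ⧸ v.asIdeal) := Ideal.finiteQuotientOfFreeOfNeBot _ v.ne_bot
    have hN : Ideal.absNorm v.asIdeal = Nat.card (𝓞 K ⧸ v.asIdeal) := by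
      rw [Ideal.absNorm_apply, Submodule.cardQuot_apply]
    refine ⟨{c : 𝓞 K ⧸ v.asIdeal | (∀ y, y ^ d ≠ Ideal.Quotient.mk v.asIdeal a - c) ∧
      ∀ y, y ^ d ≠ Ideal.Quotient.mk v.asIdeal b - c}, ?_, ?_⟩
    · have hv1' : d ∣ Nat.card (𝓞 K ⧸ v.asIdeal) - 1 := hN ▸ hv1
      have h6 := @hpw (𝓞 K ⧸ v.asIdeal) (Ideal.Quotient.field v.asIdeal) hfin d hd hv1' (Ideal.Quotient.mk v.asIdeal a)
        (Ideal.Quotient.mk v.asIdeal b)
      rw [hN] at h5 ⊢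
      obtain ⟨n, hn⟩ : ∃ n, n = {c : 𝓞 K ⧸ v.asIdeal | (∀ y, y ^ d ≠ Ideal.Quotient.mk v.asIdeal a - c) ∧
        ∀ y, y ^ d ≠ Ideal.Quotient.mk v.asIdeal b - c}.ncard := ⟨_, rfl⟩
      have h7 : Nat.card (𝓞 K ⧸ v.asIdeal) ≤ 4 * n + 5 := by
        rw [hn]
        exact h6
      rw [← hn]
      have h8 : Nat.card (𝓞 K ⧸ v.asIdeal) ≤ 9 * n := by omega
      have h9 : (Nat.card (𝓞 K ⧸ v.asIdeal) : ℝ) ≤ 9 * n := by exact_mod_cast h8
      linarith
    · intro c hc hall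
      obtain ⟨h6, h7⟩ := hall 0
      refine hc (of_one _ ?_ _ ⟨v, uni_good v hd (c 0), ?_⟩)
      · rw [natDegree_X_pow_add_C]
        omega
      · intro i
        fin_cases i
        · exact uni_nonper v hd (c 0) a h3 ha h6
        · exact uni_nonper v hd (c 0) b h4 hb h7) ε hε
  refine ⟨I, hI, le_trans ?_ (hI2.trans_eq (by rw [pow_one]))⟩
  have hfin : Finite (𝓞 K ⧸ I) := Ideal.finiteQuotientOfFreeOfNeBot _ hI
  refine Nat.cast_le.2 (Set.ncard_le_ncard_of_injOn (fun x => fun _ : Fin 1 => x) ?_ ?_ (Set.toFinite _))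
  · rintro _ ⟨c, hc, rfl⟩
    exact ⟨fun _ => c, hc, rfl⟩
  · intro x _ y _ hxy
    exact congrFun hxy 0

end Pool.Agent.P8H74.WP
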