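import Pool.Agent.P8H74.WP.Stm

/-!
# Polynomials and valuations
-/

set_option autoImplicit false

open NumberField IsDedekindDomain Polynomial

namespace Pool.Agent.P8H74.WP

section val

variable {L Γ₀ : Type*} [Field L] [LinearOrderedCommGroupWithZero Γ₀] (w : Valuation L Γ₀)

lemma pow_sub_lt {x y : L} (hx : w x ≤ 1) (hy : w y ≤ 1) (h : w (x - y) < 1) (n : ℕ) : w (x ^ n - y ^ n) < 1 := by
  induction n with
  | zero => simp
  | succ n ih =>
      have e : x ^ (n + 1) - y ^ (n + 1) = x * (x ^ n - y ^ n) + (x - y) * y ^ n := by ring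
      rw [e]
      apply w.map_add_lt
      · rw [map_mul]
        exact (mul_le_of_le_one_left' hx).trans_lt ih
      · rw [map_mul, map_pow]
        exact (mul_le_of_le_one_right' (pow_le_one₀ zero_le hy)).trans_lt h

lemma eval_le {g : L[X]} (hg : ∀ i, w (g.coeff i) ≤ 1) {x : L} (hx : w x ≤ 1) : w (g.eval x) ≤ 1 := by
  rw [eval_eq_sum_range]
  apply w.map_sum_le
  intro i _
  rw [map_mul, map_pow]
  exact mul_le_one' (hg i) (pow_le_one₀ zero_le hx)

lemma eval_sub_lt {g : L[X]} (hg : ∀ i, w (g.coeff i) ≤ 1) {x y : L} (hx : w x ≤ 1) (hy : w y ≤ 1) (h : w (x - y) < 1) :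
    w (g.eval x - g.eval y) < 1 := by
  rw [eval_eq_sum_range, eval_eq_sum_range, ← Finset.sum_sub_distrib]
  apply w.map_sum_lt one_ne_zero
  intro i _
  rw [← mul_sub, map_mul]
  exact (mul_le_of_le_one_left' (hg i)).trans_lt (pow_sub_lt w hx hy h i)

lemma root_le {g : L[X]} (hg : ∀ i, w (g.coeff i) ≤ 1) (hl : w g.leadingCoeff = 1) (hd : 1 ≤ g.natDegree) {x : L}
    (hx : w (g.eval x) ≤ 1) : w x ≤ 1 := by
  by_contra hc
  rw [not_le] at hc
  rw [eval_eq_sum_range, Finset.sum_range_succ] at hx
  have h1 : w (∑ i ∈ Finset.range g.natDegree, g.coeff i * x ^ i) < w (g.coeff g.natDegree * x ^ g.natDegree) := by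
    have h2 : w (g.coeff g.natDegree * x ^ g.natDegree) = w x ^ g.natDegree := by
      rw [map_mul, map_pow, coeff_natDegree, hl, one_mul]
    rw [h2]
    apply w.map_sum_lt (pow_ne_zero _ (by
      intro h0
      rw [h0] at hc
      exact absurd hc (not_lt.2 zero_le)))
    intro i hi
    rw [map_mul, map_pow]
    have h3 : w x ^ i < w x ^ g.natDegree := pow_lt_pow_right₀ hc (Finset.mem_range.1 hi)
    exact lt_of_le_of_lt (mul_le_of_le_one_left' (hg i)) h3
  rw [w.map_add_eq_of_lt_right h1, map_mul, map_pow, coeff_natDegree, hl, one_mul] at hx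
  have h4 : 1 < w x ^ g.natDegree := one_lt_pow₀ hc (by omega)
  exact absurd hx (not_le.2 h4)

/-! ### iterates -/

variable {g : L[X]} (hg : ∀ i, w (g.coeff i) ≤ 1)

include hg

lemma iter_le {x : L} (hx : w x ≤ 1) (n : ℕ) : w ((fun x => g.eval x)^[n] x) ≤ 1 := by
  induction n with
  | zero => simpa using hx
  | succ n ih =>
      rw [Function.iterate_succ_apply']
      exact eval_le w hg ih

lemma iter_sub_lt {x y : L} (hx : w x ≤ 1) (hy : w y ≤ 1) (h : w (x - y) < 1) (n : ℕ) :
    w ((fun x => g.eval x)^[n] x - (fun x => g.eval x)^[n] y) < 1 := by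
  induction n with
  | zero => simpa using h
  | succ n ih =>
      rw [Function.iterate_succ_apply', Function.iterate_succ_apply']
      exact eval_sub_lt w hg (iter_le w hg hx n) (iter_le w hg hy n) ih

lemma iter_root_le (hl : w g.leadingCoeff = 1) (hd : 1 ≤ g.natDegree) {x : L} (n : ℕ)
    (hx : w ((fun x => g.eval x)^[n] x) ≤ 1) : w x ≤ 1 := by
  induction n with
  | zero => simpa using hx
  | succ n ih =>
      rw [Function.iterate_succ_apply'] at hx
      exact ih (root_le w hg hl hd hx)

lemma iter_mul {x : L} (hx : w x ≤ 1) {m : ℕ} (h : w ((fun x => g.eval x)^[m] x - x) < 1) (k : ℕ) :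
    w ((fun x => g.eval x)^[m * k] x - x) < 1 := by
  induction k with
  | zero => simp
  | succ k ih =>
      have e : (fun x => g.eval x)^[m * (k + 1)] x = (fun x => g.eval x)^[m] ((fun x => g.eval x)^[m * k] x) := by
        rw [← Function.iterate_add_apply]
        congr 1
        ring
      rw [e]
      have h1 := iter_sub_lt w hg (iter_le w hg hx (m * k)) hx ih m
      have h2 := w.map_add_lt h1 h
      rwa [sub_add_sub_cancel] at h2

end val

end Pool.Agent.P8H74.WP
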